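import Mathlib
import Pool.Agent.V11176.Gessel

set_option autoImplicit false

/-!
# Definitions for MP_8317ba_co

`[n]` is modelled by `Fin n` (values and positions are `0`-based, descents are `1`-based), the
variables of the power series are indexed by `ℕ`.
-/

open Finset

namespace V11134.VR

/-- Descent set (1-based): `j ∈ des π` iff `1 ≤ j ≤ n - 1` and `π(j) > π(j+1)`, where the
`j`-th letter of `π` is `π ⟨j - 1, _⟩`. -/
def des {n : ℕ} (π : Equiv.Perm (Fin n)) : Finset ℕ :=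
  (Icc 1 (n - 1)).filter (fun j => ∃ (h : j < n) (_ : 1 ≤ j), π ⟨j, h⟩ < π ⟨j - 1, by omega⟩)

/-- Gessel's fundamental quasisymmetric function `F_{n,D}`: the coefficient of `x^e` is the number
of weakly increasing sequences `i_1 ≤ … ≤ i_n` with `i_j < i_{j+1}` for `j ∈ D` and
`x_{i_1} ⋯ x_{i_n} = x^e`. -/
noncomputable def fundF (n : ℕ) (D : Finset ℕ) : MvPowerSeries ℕ ℤ :=
  fun e => (Nat.card {i : Fin n → ℕ // Monotone i ∧
    (∀ j ∈ D, ∀ (h : j < n) (_ : 1 ≤ j), i ⟨j - 1, by omega⟩ < i ⟨j, h⟩) ∧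
    ∑ k, Finsupp.single (i k) 1 = e} : ℤ)

/-- `Q(S)`, the quasisymmetric generating function of the descent sets. -/
noncomputable def Q {n : ℕ} (S : Finset (Equiv.Perm (Fin n))) : MvPowerSeries ℕ ℤ :=
  ∑ π ∈ S, fundF n (des π)

/-- The Schur function `s_μ`: the generating function of semistandard tableaux of shape `μ`. -/
noncomputable def schur (μ : YoungDiagram) : MvPowerSeries ℕ ℤ :=
  fun e => (Nat.card {T : SemistandardYoungTableau μ //
    ∑ c ∈ μ.cells, Finsupp.single (T c.1 c.2) 1 = e} : ℤ)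

/-- `f` is a combination of Schur functions `s_μ`, `|μ| = n`, with nonnegative coefficients. -/
def SchurPositive (n : ℕ) (f : MvPowerSeries ℕ ℤ) : Prop :=
  ∃ a : YoungDiagram →₀ ℕ, (∀ μ ∈ a.support, μ.card = n) ∧
    f = ∑ μ ∈ a.support, (a μ : ℤ) • schur μ

/-- The one-column grid class `G^v_n`, `v ∈ {+,-}^k` (`true` is `+`): `b` assigns to each value the
number of its strip; the values of strip `i` occur in `π` in increasing order if `v i = +` and in
decreasing order if `v i = -`. -/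
def gridClass {k : ℕ} (v : Fin k → Bool) (n : ℕ) : Set (Equiv.Perm (Fin n)) :=
  {π | ∃ b : Fin n → Fin k, Monotone b ∧ ∀ x y : Fin n, x < y → b x = b y →
    if v (b x) = true then π.symm x < π.symm y else π.symm y < π.symm x}

/-- The set `{C_n A}` of all vertical rotations `c^j π`, `π ∈ A`, where `c = (1,2,…,n)`. -/
def rotations {n : ℕ} (A : Set (Equiv.Perm (Fin n))) : Set (Equiv.Perm (Fin n)) :=
  {σ | ∃ j : ℕ, ∃ π ∈ A, σ = finRotate n ^ j * π}

open V11176.Content V11176.Gessel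

theorem des_sub {n : ℕ} (π : Equiv.Perm (Fin n)) : des π ⊆ Icc 1 (n - 1) := filter_subset _ _

theorem mem_des {n : ℕ} (π : Equiv.Perm (Fin n)) (j : ℕ) (h1 : 1 ≤ j) (h : j < n) :
    j ∈ des π ↔ π ⟨j, h⟩ < π ⟨j - 1, by omega⟩ := by
  rw [des, mem_filter, mem_Icc]
  constructor
  · rintro ⟨_, _, _, h2⟩; exact h2
  · intro h2; exact ⟨⟨h1, by omega⟩, h, h1, h2⟩

theorem fund_coeff {n : ℕ} (D : Finset ℕ) (hD : D ⊆ Icc 1 (n - 1)) (r : Fin n → ℕ)
    (hr : Monotone r) (e : ℕ →₀ ℕ) (he : ∑ k, Finsupp.single (r k) 1 = e) :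
    MvPowerSeries.coeff e (fundF n D) = if D ⊆ asc r then 1 else 0 := by
  rw [MvPowerSeries.coeff_apply]
  unfold fundF
  have hiff : (∀ j ∈ D, ∀ (h : j < n) (_ : 1 ≤ j), r ⟨j - 1, by omega⟩ < r ⟨j, h⟩) ↔
      D ⊆ asc r := by
    constructor
    · intro h j hj
      have hj' := mem_Icc.1 (hD hj)
      rw [mem_asc r j hj'.1 (by omega)]
      exact h j hj (by omega) hj'.1
    · intro h j hj hjn hj1
      have := h hj
      rwa [mem_asc r j hj1 hjn] at this
  split_ifs with h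
  · have : Nat.card {i : Fin n → ℕ // Monotone i ∧
        (∀ j ∈ D, ∀ (h : j < n) (_ : 1 ≤ j), i ⟨j - 1, by omega⟩ < i ⟨j, h⟩) ∧
        ∑ k, Finsupp.single (i k) 1 = e} = 1 := by
      rw [Nat.card_eq_one_iff_unique]
      constructor
      · constructor
        rintro ⟨i, hi⟩ ⟨i', hi'⟩
        apply Subtype.ext
        exact content_unique i i' hi.1 hi'.1 (hi.2.2.trans hi'.2.2.symm)
      · exact ⟨⟨r, hr, hiff.2 h, he⟩⟩
    rw [this]; rfl
  · have : Nat.card {i : Fin n → ℕ // Monotone i ∧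
        (∀ j ∈ D, ∀ (h : j < n) (_ : 1 ≤ j), i ⟨j - 1, by omega⟩ < i ⟨j, h⟩) ∧
        ∑ k, Finsupp.single (i k) 1 = e} = 0 := by
      rw [Nat.card_eq_zero]
      left
      constructor
      rintro ⟨i, hi⟩
      have : i = r := content_unique i r hi.1 hr (hi.2.2.trans he.symm)
      subst this
      exact h (hiff.1 hi.2.1)
    rw [this]; rfl

theorem Q_coeff {n : ℕ} (S : Finset (Equiv.Perm (Fin n))) (r : Fin n → ℕ)
    (hr : Monotone r) (e : ℕ →₀ ℕ) (he : ∑ k, Finsupp.single (r k) 1 = e) :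
    MvPowerSeries.coeff e (Q S) = (#{π ∈ S | des π ⊆ asc r} : ℤ) := by
  rw [Q, map_sum, sum_congr rfl (fun π _ => fund_coeff (des π) (des_sub π) r hr e he),
    card_filter]
  push_cast
  rfl

theorem Q_coeff_ne {n : ℕ} (S : Finset (Equiv.Perm (Fin n))) (e : ℕ →₀ ℕ)
    (he : ∑ x ∈ e.support, e x ≠ n) : MvPowerSeries.coeff e (Q S) = 0 := by
  rw [Q, map_sum]
  refine sum_eq_zero fun π _ => ?_
  rw [MvPowerSeries.coeff_apply]
  unfold fundF
  have : Nat.card {i : Fin n → ℕ // Monotone i ∧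
        (∀ j ∈ des π, ∀ (h : j < n) (_ : 1 ≤ j), i ⟨j - 1, by omega⟩ < i ⟨j, h⟩) ∧
        ∑ k, Finsupp.single (i k) 1 = e} = 0 := by
    rw [Nat.card_eq_zero]
    left
    constructor
    rintro ⟨i, hi⟩
    exact he (content_degree i e hi.2.2)
  rw [this]; rfl

theorem schur_coeff_ne {n : ℕ} (μ : YoungDiagram) (hμ : μ.cells.card = n) (e : ℕ →₀ ℕ)
    (he : ∑ x ∈ e.support, e x ≠ n) : MvPowerSeries.coeff e (schur μ) = 0 := by
  rw [MvPowerSeries.coeff_apply]
  unfold schur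
  have : Nat.card {T : SemistandardYoungTableau μ //
      ∑ c ∈ μ.cells, Finsupp.single (T c.1 c.2) 1 = e} = 0 := by
    rw [Nat.card_eq_zero]
    left
    constructor
    rintro ⟨T, hT⟩
    rw [content_cells T (μ.cells.equivFinOfCardEq hμ).symm] at hT
    exact he (content_degree _ e hT)
  rw [this]; rfl

end V11134.VR
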