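import Mathlib
import Pool.Agent.H634R3.Kostka.GT

set_option autoImplicit false

/-!
# RSK by local growth rules, for natural matrices and Gelfand-Tsetlin patterns
-/

open Finset

namespace V11134.VR

open Pool.Agent.H634R3.KF

/-- `lam / mu` is a horizontal strip -/
def HS (mu lam : ℕ → ℕ) : Prop := ∀ k, mu k ≤ lam k ∧ lam (k + 1) ≤ mu k

/-- local rule, forward -/
def up (a b rho : ℕ → ℕ) (m : ℕ) : ℕ → ℕ
  | 0 => max (a 0) (b 0) + m
  | k + 1 => max (a (k + 1)) (b (k + 1)) + min (a k) (b k) - rho k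

/-- local rule, backward -/
def down (a b lam : ℕ → ℕ) : ℕ → ℕ :=
  fun k => max (a (k + 1)) (b (k + 1)) + min (a k) (b k) - lam (k + 1)

theorem up_a {a b rho : ℕ → ℕ} {m : ℕ} (h1 : HS rho a) (h2 : HS rho b) : HS a (up a b rho m) := by
  intro k
  rcases k with _ | k
  · have e1 := h1 0
    have e2 := h2 0
    simp only [up]
    omega
  · have e1 := h1 k
    have e2 := h2 k
    have e3 := h1 (k + 1)
    have e4 := h2 (k + 1)
    simp only [up]
    omega

theorem up_b {a b rho : ℕ → ℕ} {m : ℕ} (h1 : HS rho a) (h2 : HS rho b) : HS b (up a b rho m) := by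
  intro k
  rcases k with _ | k
  · have e1 := h1 0
    have e2 := h2 0
    simp only [up]
    omega
  · have e1 := h1 k
    have e2 := h2 k
    have e3 := h1 (k + 1)
    have e4 := h2 (k + 1)
    simp only [up]
    omega

theorem down_a {a b lam : ℕ → ℕ} (h1 : HS a lam) (h2 : HS b lam) : HS (down a b lam) a := by
  intro k
  have e1 := h1 k
  have e2 := h2 k
  have e3 := h1 (k + 1)
  have e4 := h2 (k + 1)
  simp only [down]
  omega

theorem down_b {a b lam : ℕ → ℕ} (h1 : HS a lam) (h2 : HS b lam) : HS (down a b lam) b := by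
  intro k
  have e1 := h1 k
  have e2 := h2 k
  have e3 := h1 (k + 1)
  have e4 := h2 (k + 1)
  simp only [down]
  omega

theorem down_up {a b rho : ℕ → ℕ} {m : ℕ} (h1 : HS rho a) (h2 : HS rho b) :
    down a b (up a b rho m) = rho := by
  funext k
  have e1 := h1 k
  have e2 := h2 k
  simp only [down, up]
  omega

theorem up_down {a b lam : ℕ → ℕ} (h1 : HS a lam) (h2 : HS b lam) :
    up a b (down a b lam) (lam 0 - max (a 0) (b 0)) = lam := by
  funext k
  rcases k with _ | k
  · have e1 := h1 0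
    have e2 := h2 0
    simp only [up]
    omega
  · have e1 := h1 k
    have e2 := h2 k
    have e3 := h1 (k + 1)
    have e4 := h2 (k + 1)
    simp only [down, up]
    omega

theorem up_sum {a b rho : ℕ → ℕ} {m N : ℕ} (h1 : HS rho a) (h2 : HS rho b)
    (hb : min (a N) (b N) = 0) (hr : rho N = 0) :
    ∑ k ∈ range (N + 1), up a b rho m k + ∑ k ∈ range (N + 1), rho k =
      ∑ k ∈ range (N + 1), a k + ∑ k ∈ range (N + 1), b k + m := by
  have e1 : ∑ k ∈ range (N + 1), rho k = ∑ k ∈ range N, rho k := by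
    rw [sum_range_succ, hr, add_zero]
  have e2 : ∑ k ∈ range (N + 1), a k + ∑ k ∈ range (N + 1), b k =
      ∑ k ∈ range (N + 1), max (a k) (b k) + ∑ k ∈ range N, min (a k) (b k) := by
    have : ∑ k ∈ range N, min (a k) (b k) = ∑ k ∈ range (N + 1), min (a k) (b k) := by
      rw [sum_range_succ, hb, add_zero]
    rw [this, ← sum_add_distrib, ← sum_add_distrib]
    exact sum_congr rfl fun k _ => by omega
  rw [e1, e2, sum_range_succ' (fun k => up a b rho m k),
    sum_range_succ' (fun k => max (a k) (b k))]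
  have e3 : ∑ k ∈ range N, up a b rho m (k + 1) + ∑ k ∈ range N, rho k =
      ∑ k ∈ range N, max (a (k + 1)) (b (k + 1)) + ∑ k ∈ range N, min (a k) (b k) := by
    rw [← sum_add_distrib, ← sum_add_distrib]
    refine sum_congr rfl fun k _ => ?_
    have e1 := h1 k
    have e2 := h2 k
    simp only [up]
    omega
  have e4 : up a b rho m 0 = max (a 0) (b 0) + m := rfl
  rw [e4]
  omega

/-- growth diagram of a matrix -/
def gr (M : ℕ → ℕ → ℕ) : ℕ → ℕ → ℕ → ℕ
  | 0, _ => fun _ => 0
  | _ + 1, 0 => fun _ => 0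
  | i + 1, j + 1 => up (gr M (i + 1) j) (gr M i (j + 1)) (gr M i j) (M i j)
termination_by i j => i + j

theorem gr_left (M : ℕ → ℕ → ℕ) (j : ℕ) : gr M 0 j = fun _ => 0 := by rw [gr]

theorem gr_bot (M : ℕ → ℕ → ℕ) (i : ℕ) : gr M i 0 = fun _ => 0 := by
  cases i <;> rw [gr]

theorem gr_succ (M : ℕ → ℕ → ℕ) (i j : ℕ) :
    gr M (i + 1) (j + 1) = up (gr M (i + 1) j) (gr M i (j + 1)) (gr M i j) (M i j) := by rw [gr]

theorem gr_HS (M : ℕ → ℕ → ℕ) (n : ℕ) : ∀ i j, i + j = n →
    HS (gr M i j) (gr M (i + 1) j) ∧ HS (gr M i j) (gr M i (j + 1)) := by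
  induction n using Nat.strong_induction_on with
  | _ n ih =>
    intro i j hij
    constructor
    · rcases j with _ | j
      · rw [gr_bot, gr_bot]; intro k; simp
      · have h := ih (i + j) (by omega) i j rfl
        rw [gr_succ]
        exact up_b h.1 h.2
    · rcases i with _ | i
      · rw [gr_left, gr_left]; intro k; simp
      · have h := ih (i + j) (by omega) i j rfl
        rw [gr_succ]
        exact up_a h.1 h.2

theorem gr_HS1 (M : ℕ → ℕ → ℕ) (i j : ℕ) : HS (gr M i j) (gr M (i + 1) j) := (gr_HS M _ i j rfl).1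

theorem gr_HS2 (M : ℕ → ℕ → ℕ) (i j : ℕ) : HS (gr M i j) (gr M i (j + 1)) := (gr_HS M _ i j rfl).2

theorem gr_zero (M : ℕ → ℕ → ℕ) (i j k : ℕ) (h : i ≤ k) : gr M i j k = 0 := by
  induction i generalizing k with
  | zero => rw [gr_left]
  | succ i ih =>
    obtain ⟨k, rfl⟩ : ∃ m, k = m + 1 := ⟨k - 1, by omega⟩
    have h1 := (gr_HS1 M i j k).2
    rw [ih k (by omega)] at h1
    omega

theorem gr_size (M : ℕ → ℕ → ℕ) (N i j : ℕ) (hi : i < N) :
    ∑ k ∈ range N, gr M (i + 1) (j + 1) k + ∑ k ∈ range N, gr M i j k =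
      ∑ k ∈ range N, gr M (i + 1) j k + ∑ k ∈ range N, gr M i (j + 1) k + M i j := by
  obtain ⟨N, rfl⟩ : ∃ m, N = m + 1 := ⟨N - 1, by omega⟩
  rw [gr_succ]
  apply up_sum (gr_HS1 M i j) (gr_HS2 M i j)
  · rw [gr_zero M i (j + 1) N (by omega)]; simp
  · exact gr_zero M i j N (by omega)

theorem gr_row (M : ℕ → ℕ → ℕ) (N i j : ℕ) (hi : i < N) :
    ∑ k ∈ range N, gr M (i + 1) j k = ∑ k ∈ range N, gr M i j k + ∑ l ∈ range j, M i l := by
  induction j with
  | zero => rw [gr_bot, gr_bot]; simp
  | succ j ih =>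
    have := gr_size M N i j hi
    rw [sum_range_succ]
    omega

theorem gr_col (M : ℕ → ℕ → ℕ) (N i j : ℕ) (hi : i ≤ N) :
    ∑ k ∈ range N, gr M i (j + 1) k = ∑ k ∈ range N, gr M i j k + ∑ l ∈ range i, M l j := by
  induction i with
  | zero => rw [gr_left, gr_left]; simp
  | succ i ih =>
    have := gr_size M N i j (by omega)
    have := ih (by omega)
    rw [sum_range_succ]
    omega

/-- the right boundary -/
def bx (M : ℕ → ℕ → ℕ) (N : ℕ) : ℕ → ℕ → ℕ := fun j => gr M N (min j N)

/-- the top boundary -/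
def bY (M : ℕ → ℕ → ℕ) (N : ℕ) : ℕ → ℕ → ℕ := fun i => gr M (min i N) N

theorem bx_mem (M : ℕ → ℕ → ℕ) (N : ℕ) (β : ℕ → ℕ)
    (hc : ∀ j, j < N → ∑ i ∈ range N, M i j = β j) : bx M N ∈ GTP N (gr M N N) β := by
  refine ⟨?_, ?_, ?_, ?_⟩
  · intro j
    simp [bx, gr_bot]
  · intro i hi j
    simp [bx, min_eq_right hi]
  · intro i hi j
    have e1 : min i N = i := by omega
    have e2 : min (i + 1) N = i + 1 := by omega
    simp only [bx, e1, e2]
    exact gr_HS2 M N i j
  · intro i hi
    have e1 : min i N = i := by omega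
    have e2 : min (i + 1) N = i + 1 := by omega
    simp only [bx, e1, e2]
    rw [gr_col M N N i le_rfl, hc i hi]

theorem bY_mem (M : ℕ → ℕ → ℕ) (N : ℕ) (α : ℕ → ℕ)
    (hr : ∀ i, i < N → ∑ j ∈ range N, M i j = α i) : bY M N ∈ GTP N (gr M N N) α := by
  refine ⟨?_, ?_, ?_, ?_⟩
  · intro j
    simp [bY, gr_left]
  · intro i hi j
    simp [bY, min_eq_right hi]
  · intro i hi j
    have e1 : min i N = i := by omega
    have e2 : min (i + 1) N = i + 1 := by omega
    simp only [bY, e1, e2]
    exact gr_HS1 M i N j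
  · intro i hi
    have e1 : min i N = i := by omega
    have e2 : min (i + 1) N = i + 1 := by omega
    simp only [bY, e1, e2]
    rw [gr_row M N i N hi, hr i hi]

/-- the boundary determines the growth diagram -/
theorem gr_inj (M M' : ℕ → ℕ → ℕ) (N : ℕ) (hx : bx M N = bx M' N) (hy : bY M N = bY M' N) :
    ∀ n i j, i + j = n → i ≤ N → j ≤ N → gr M (N - i) (N - j) = gr M' (N - i) (N - j) := by
  intro n
  induction n using Nat.strong_induction_on with
  | _ n ih =>
    intro i j hij hi hj
    rcases i with _ | i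
    · have := congr_fun hx (N - j)
      have e : min (N - j) N = N - j := by omega
      simp only [bx, e] at this
      exact this
    · rcases j with _ | j
      · have := congr_fun hy (N - (i + 1))
        have e : min (N - (i + 1)) N = N - (i + 1) := by omega
        simp only [bY, e] at this
        exact this
      · have h1 := ih (i + (j + 1)) (by omega) i (j + 1) rfl (by omega) hj
        have h2 := ih (i + 1 + j) (by omega) (i + 1) j rfl hi (by omega)
        have h3 := ih (i + j) (by omega) i j rfl (by omega) (by omega)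
        have ei : N - i = N - (i + 1) + 1 := by omega
        have ej : N - j = N - (j + 1) + 1 := by omega
        rw [ei] at h1 h3
        rw [ej] at h2 h3
        have d1 := down_up (m := M (N - (i + 1)) (N - (j + 1)))
          (gr_HS1 M (N - (i + 1)) (N - (j + 1))) (gr_HS2 M (N - (i + 1)) (N - (j + 1)))
        have d2 := down_up (m := M' (N - (i + 1)) (N - (j + 1)))
          (gr_HS1 M' (N - (i + 1)) (N - (j + 1))) (gr_HS2 M' (N - (i + 1)) (N - (j + 1)))
        rw [← gr_succ] at d1 d2
        rw [← d1, ← d2, h1, h2, h3]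

/-- backward growth from the boundary; `bk x y N i j` is the partition at `(N - i, N - j)` -/
def bk (x y : ℕ → ℕ → ℕ) (N : ℕ) : ℕ → ℕ → ℕ → ℕ
  | 0, j => x (N - j)
  | i + 1, 0 => y (N - (i + 1))
  | i + 1, j + 1 => down (bk x y N i (j + 1)) (bk x y N (i + 1) j) (bk x y N i j)
termination_by i j => i + j

variable {N : ℕ} {lam α β : ℕ → ℕ} {x y : ℕ → ℕ → ℕ}

theorem gtp_HS (hx : x ∈ GTP N lam β) (j : ℕ) (hj : j < N) : HS (x j) (x (j + 1)) :=
  fun k => hx.2.2.1 j hj k

theorem bk_0 (x y : ℕ → ℕ → ℕ) (N j : ℕ) : bk x y N 0 j = x (N - j) := by rw [bk]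

theorem bk_succ (x y : ℕ → ℕ → ℕ) (N i j : ℕ) : bk x y N (i + 1) (j + 1) =
    down (bk x y N i (j + 1)) (bk x y N (i + 1) j) (bk x y N i j) := by rw [bk]

theorem bk_r0 (hx : x ∈ GTP N lam β) (hy : y ∈ GTP N lam α) (i : ℕ) :
    bk x y N i 0 = y (N - i) := by
  rcases i with _ | i
  · rw [bk]
    funext k
    simp only [Nat.sub_zero]
    rw [hx.2.1 N le_rfl, hy.2.1 N le_rfl]
  · rw [bk]

theorem bk_HS (hx : x ∈ GTP N lam β) (hy : y ∈ GTP N lam α) (n : ℕ) : ∀ i j, i + j = n →
    (i < N → j ≤ N → HS (bk x y N (i + 1) j) (bk x y N i j)) ∧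
    (i ≤ N → j < N → HS (bk x y N i (j + 1)) (bk x y N i j)) := by
  induction n using Nat.strong_induction_on with
  | _ n ih =>
    intro i j hij
    constructor
    · intro hi hj
      rcases j with _ | j
      · rw [bk_r0 hx hy, bk_r0 hx hy]
        have e : N - i = N - (i + 1) + 1 := by omega
        rw [e]
        exact gtp_HS hy _ (by omega)
      · have h := ih (i + j) (by omega) i j rfl
        rw [bk_succ]
        exact down_a (h.2 hi.le (by omega)) (h.1 hi (by omega))
    · intro hi hj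
      rcases i with _ | i
      · rw [bk_0, bk_0]
        have e : N - j = N - (j + 1) + 1 := by omega
        rw [e]
        exact gtp_HS hx _ (by omega)
      · have h := ih (i + j) (by omega) i j rfl
        rw [bk_succ]
        exact down_b (h.2 (by omega) (by omega)) (h.1 (by omega) (by omega))

theorem bk_HS1 (hx : x ∈ GTP N lam β) (hy : y ∈ GTP N lam α) (i j : ℕ) (hi : i < N) (hj : j ≤ N) :
    HS (bk x y N (i + 1) j) (bk x y N i j) := (bk_HS hx hy _ i j rfl).1 hi hj

theorem bk_HS2 (hx : x ∈ GTP N lam β) (hy : y ∈ GTP N lam α) (i j : ℕ) (hi : i ≤ N) (hj : j < N) :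
    HS (bk x y N i (j + 1)) (bk x y N i j) := (bk_HS hx hy _ i j rfl).2 hi hj

theorem bk_left (hx : x ∈ GTP N lam β) (hy : y ∈ GTP N lam α) (j : ℕ) (hj : j ≤ N) :
    bk x y N N j = fun _ => 0 := by
  induction j with
  | zero =>
    rw [bk_r0 hx hy]
    funext k
    simp only [Nat.sub_self]
    exact hy.1 k
  | succ j ih =>
    funext k
    have h := (bk_HS2 hx hy N j le_rfl (by omega) k).1
    rw [ih (by omega)] at h
    exact Nat.le_zero.1 h

theorem bk_bot (hx : x ∈ GTP N lam β) (hy : y ∈ GTP N lam α) (i : ℕ) (hi : i ≤ N) :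
    bk x y N i N = fun _ => 0 := by
  induction i with
  | zero =>
    rw [bk_0]
    funext k
    simp only [Nat.sub_self]
    exact hx.1 k
  | succ i ih =>
    funext k
    have h := (bk_HS1 hx hy i N (by omega) le_rfl k).1
    rw [ih (by omega)] at h
    exact Nat.le_zero.1 h

/-- the matrix recovered from the boundary -/
def mat (x y : ℕ → ℕ → ℕ) (N : ℕ) : ℕ → ℕ → ℕ := fun i j =>
  if i < N ∧ j < N then bk x y N (N - (i + 1)) (N - (j + 1)) 0 -
    max (bk x y N (N - (i + 1)) (N - j) 0) (bk x y N (N - i) (N - (j + 1)) 0) else 0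

theorem gr_mat (hx : x ∈ GTP N lam β) (hy : y ∈ GTP N lam α) (n : ℕ) : ∀ i j, i + j = n →
    i ≤ N → j ≤ N → gr (mat x y N) i j = bk x y N (N - i) (N - j) := by
  induction n using Nat.strong_induction_on with
  | _ n ih =>
    intro i j hij hi hj
    rcases i with _ | i
    · rw [gr_left, Nat.sub_zero, bk_left hx hy _ (by omega)]
    · rcases j with _ | j
      · rw [gr_bot, Nat.sub_zero, bk_bot hx hy _ (by omega)]
      · rw [gr_succ, ih (i + 1 + j) (by omega) (i + 1) j rfl hi (by omega),
          ih (i + (j + 1)) (by omega) i (j + 1) rfl (by omega) hj,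
          ih (i + j) (by omega) i j rfl (by omega) (by omega)]
        have ei : N - i = N - (i + 1) + 1 := by omega
        have ej : N - j = N - (j + 1) + 1 := by omega
        have hm : mat x y N i j = bk x y N (N - (i + 1)) (N - (j + 1)) 0 -
            max (bk x y N (N - (i + 1)) (N - (j + 1) + 1) 0)
              (bk x y N (N - (i + 1) + 1) (N - (j + 1)) 0) := by
          rw [← ei, ← ej, mat, if_pos ⟨by omega, by omega⟩]
        rw [hm, ei, ej, bk_succ]
        apply up_down
        · exact bk_HS2 hx hy _ _ (by omega) (by omega)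
        · exact bk_HS1 hx hy _ _ (by omega) (by omega)

/-- natural matrices with prescribed margins -/
def Mx (N : ℕ) (α β : ℕ → ℕ) : Set (ℕ → ℕ → ℕ) :=
  {M | (∀ i j, (N ≤ i ∨ N ≤ j) → M i j = 0) ∧ (∀ i, i < N → ∑ j ∈ range N, M i j = α i) ∧
    (∀ j, j < N → ∑ i ∈ range N, M i j = β j)}

/-- pairs of patterns with a common shape -/
def Prs (N : ℕ) (α β : ℕ → ℕ) : Set ((ℕ → ℕ) × (ℕ → ℕ → ℕ) × (ℕ → ℕ → ℕ)) :=
  {p | p.2.1 ∈ GTP N p.1 β ∧ p.2.2 ∈ GTP N p.1 α}

/-- RSK -/
theorem rsk (N : ℕ) (α β : ℕ → ℕ) : Nat.card (Mx N α β) = Nat.card (Prs N α β) := by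
  refine Nat.card_eq_of_bijective
    (fun M : Mx N α β => (⟨(gr M.1 N N, bx M.1 N, bY M.1 N),
      bx_mem M.1 N β M.2.2.2, bY_mem M.1 N α M.2.2.1⟩ : Prs N α β)) ⟨?_, ?_⟩
  · rintro ⟨M, hM⟩ ⟨M', hM'⟩ h
    simp only [Subtype.mk.injEq, Prod.mk.injEq] at h
    apply Subtype.ext
    simp only
    have key := gr_inj M M' N h.2.1 h.2.2
    have key' : ∀ i j, i ≤ N → j ≤ N → gr M i j = gr M' i j := by
      intro i j hi hj
      have := key _ (N - i) (N - j) rfl (by omega) (by omega)
      have e1 : N - (N - i) = i := by omega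
      have e2 : N - (N - j) = j := by omega
      rwa [e1, e2] at this
    funext i j
    by_cases hij : i < N ∧ j < N
    · have e1 := congr_fun (key' (i + 1) (j + 1) (by omega) (by omega)) 0
      rw [gr_succ, gr_succ, key' (i + 1) j (by omega) (by omega),
        key' i (j + 1) (by omega) (by omega), key' i j (by omega) (by omega)] at e1
      simp only [up] at e1
      omega
    · rw [hM.1 i j (by omega), hM'.1 i j (by omega)]
  · rintro ⟨⟨lam, x, y⟩, hx, hy⟩
    simp only at hx hy
    have key := gr_mat hx hy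
    have kx : ∀ j, j ≤ N → gr (mat x y N) N j = x j := by
      intro j hj
      rw [key _ N j rfl le_rfl hj, Nat.sub_self, bk_0]
      congr 1
      omega
    have ky : ∀ i, i ≤ N → gr (mat x y N) i N = y i := by
      intro i hi
      rw [key _ i N rfl hi le_rfl, Nat.sub_self, bk_r0 hx hy]
      congr 1
      omega
    refine ⟨⟨mat x y N, ?_, ?_, ?_⟩, ?_⟩
    · intro i j hij
      rw [mat, if_neg (by omega)]
    · intro i hi
      have h1 := gr_row (mat x y N) N i N hi
      rw [ky _ (by omega), ky _ (by omega), hy.2.2.2 i hi] at h1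
      omega
    · intro j hj
      have h1 := gr_col (mat x y N) N N j le_rfl
      rw [kx _ (by omega), kx _ (by omega), hx.2.2.2 j hj] at h1
      omega
    · apply Subtype.ext
      simp only [Prod.mk.injEq]
      refine ⟨?_, ?_, ?_⟩
      · rw [kx N le_rfl]
        funext k
        exact hx.2.1 N le_rfl k
      · funext j
        simp only [bx]
        rw [kx _ (min_le_right _ _)]
        by_cases hj : j ≤ N
        · rw [min_eq_left hj]
        · rw [min_eq_right (by omega)]
          funext k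
          rw [hx.2.1 N le_rfl, hx.2.1 j (by omega)]
      · funext i
        simp only [bY]
        rw [ky _ (min_le_right _ _)]
        by_cases hj : i ≤ N
        · rw [min_eq_left hj]
        · rw [min_eq_right (by omega)]
          funext k
          rw [hy.2.1 N le_rfl, hy.2.1 i (by omega)]

end V11134.VR
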