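import Mathlib
import Pool.Agent.V11176.JackCount
import Pool.Agent.V11134.VR.RSKG

set_option autoImplicit false

/-!
# Permutations and matrices
-/

open Finset

namespace V11134.VR

open V11176 Pool.Agent.H634R3.KF

variable {n : ℕ}

theorem mono_unique {X : Type*} [LinearOrder X] (f g : Fin n → X) (hf : Monotone f)
    (hg : Monotone g) (h : univ.val.map f = univ.val.map g) : f = g := by
  rw [Fin.univ_val_map, Fin.univ_val_map, Multiset.coe_eq_coe] at h
  exact List.ofFn_injective (h.eq_of_pairwise' hf.sortedLE_ofFn.pairwise
      hg.sortedLE_ofFn.pairwise)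

theorem mono_exists {X : Type*} [LinearOrder X] (m : Multiset X) (hm : m.card = n) :
    ∃ f : Fin n → X, Monotone f ∧ univ.val.map f = m := by
  obtain ⟨l, rfl⟩ := Quot.exists_rep m
  have hcard : l.length = n := hm
  subst hcard
  refine ⟨l.get ∘ Tuple.sort l.get, Tuple.monotone_sort _, ?_⟩
  rw [Fin.univ_val_map]
  have h1 := Equiv.Perm.ofFn_comp_perm (Tuple.sort l.get) l.get
  rw [List.ofFn_get] at h1
  exact Quot.sound h1

theorem count_map_univ {X : Type*} [DecidableEq X] (f : Fin n → X) (c : X) :
    (univ.val.map f).count c = #{a | f a = c} := by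
  rw [Multiset.count_map, Finset.card_def, Finset.filter_val]
  congr 1
  exact Multiset.filter_congr (fun x _ => eq_comm)

theorem stdE_val (f g : Fin n → ℕ) (h : ∀ c, #{a | f a = c} = #{a | g a = c}) (i : Fin n) :
    g (stdE f g i) = f i := by
  have h1 : f ∘ Tuple.sort f = g ∘ Tuple.sort g := by
    apply mono_unique _ _ (Tuple.monotone_sort f) (Tuple.monotone_sort g)
    ext c
    rw [count_map_univ, count_map_univ]
    have key : ∀ (f : Fin n → ℕ), #{a | (f ∘ Tuple.sort f) a = c} = #{a | f a = c} := by
      intro f
      refine Finset.card_bij (fun a _ => Tuple.sort f a) ?_ ?_ ?_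
      · intro a ha; simpa using ha
      · intro a _ b _ hab; exact (Tuple.sort f).injective hab
      · intro b hb
        refine ⟨(Tuple.sort f).symm b, ?_, by simp⟩
        simpa using hb
    rw [key, key, h]
  have h2 := congr_fun h1 ((Tuple.sort f).symm i)
  simp only [Function.comp, Equiv.apply_symm_apply] at h2
  rw [h2]
  rfl

/-- permutations increasing on the classes of `r`, with inverse increasing on the classes of `s` -/
def DD (r s : Fin n → ℕ) : Set (Equiv.Perm (Fin n)) := {π | IncOn r π ∧ IncOn s π.symm}

/-- the matrix of a permutation -/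
def pm (r s : Fin n → ℕ) (π : Equiv.Perm (Fin n)) : ℕ → ℕ → ℕ :=
  fun x y => #{a | s a = x ∧ r (π.symm a) = y}

theorem pair_mono (r s : Fin n → ℕ) (hr : Monotone r) (hs : Monotone s) (π : Equiv.Perm (Fin n))
    (hπ : IncOn s π.symm) : Monotone (fun a => (toLex (s a, r (π.symm a)) : ℕ ×ₗ ℕ)) := by
  intro a b hab
  simp only
  rw [Prod.Lex.toLex_le_toLex]
  rcases hab.eq_or_lt with h | h
  · subst h
    right; exact ⟨rfl, le_rfl⟩
  · rcases (hs hab).eq_or_lt with h1 | h1
    · right
      exact ⟨h1, hr (hπ a b h h1).le⟩
    · left; exact h1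

theorem pm_mem (r s : Fin n → ℕ) (N : ℕ) (hrN : ∀ a, r a < N) (hsN : ∀ a, s a < N)
    (π : Equiv.Perm (Fin n)) :
    pm r s π ∈ Mx N (fun x => #{a | s a = x}) (fun y => #{a | r a = y}) := by
  refine ⟨?_, ?_, ?_⟩
  · intro x y h
    rw [pm, Finset.card_eq_zero, Finset.filter_eq_empty_iff]
    rintro a _ ⟨h1, h2⟩
    have := hrN (π.symm a)
    have := hsN a
    omega
  · intro x _
    show _ = #{a | s a = x}
    rw [Finset.card_eq_sum_card_fiberwise (f := fun a => r (π.symm a)) (t := range N)
      (fun a _ => by simpa using hrN _)]
    refine sum_congr rfl fun y _ => ?_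
    rw [pm, Finset.filter_filter]
  · intro y _
    have h1 : #{a | r a = y} = #{a | r (π.symm a) = y} := by
      refine Finset.card_bij (fun a _ => π a) ?_ ?_ ?_
      · intro a ha; simpa using ha
      · intro a _ b _ hab; exact π.injective hab
      · intro b hb
        exact ⟨π.symm b, by simpa using hb, by simp⟩
    show _ = #{a | r a = y}
    rw [h1, Finset.card_eq_sum_card_fiberwise (f := s) (t := range N)
      (fun a _ => by simpa using hsN _)]
    refine sum_congr rfl fun x _ => ?_
    rw [pm, Finset.filter_filter]
    congr 1
    ext a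
    simp only [mem_filter, mem_univ, true_and]
    tauto

theorem card_DD (r s : Fin n → ℕ) (hr : Monotone r) (hs : Monotone s) (N : ℕ)
    (hrN : ∀ a, r a < N) (hsN : ∀ a, s a < N) :
    Nat.card (DD r s) = Nat.card (Mx N (fun x => #{a | s a = x}) (fun y => #{a | r a = y})) := by
  refine Nat.card_eq_of_bijective
    (fun π : DD r s => (⟨pm r s π.1, pm_mem r s N hrN hsN π.1⟩ :
      Mx N (fun x => #{a | s a = x}) (fun y => #{a | r a = y}))) ⟨?_, ?_⟩
  · rintro ⟨π, hπ⟩ ⟨π', hπ'⟩ h
    have h : pm r s π = pm r s π' := congrArg Subtype.val h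
    apply Subtype.ext
    show π = π'
    have h1 := mono_unique _ _ (pair_mono r s hr hs π hπ.2) (pair_mono r s hr hs π' hπ'.2) (by
      ext c
      rw [count_map_univ, count_map_univ]
      have h2 := congr_fun (congr_fun h (ofLex c).1) (ofLex c).2
      simp only [pm] at h2
      have e : ∀ π : Equiv.Perm (Fin n),
          (univ : Finset (Fin n)).filter (fun a => (toLex (s a, r (π.symm a)) : ℕ ×ₗ ℕ) = c) =
          univ.filter (fun a => s a = (ofLex c).1 ∧ r (π.symm a) = (ofLex c).2) := by
        intro π
        ext a
        simp only [mem_filter, mem_univ, true_and]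
        constructor
        · intro h; rw [← h]; exact ⟨rfl, rfl⟩
        · rintro ⟨h, h'⟩; rw [h, h']; rfl
      rw [e, e, h2])
    have h3 : ∀ a, r (π.symm a) = r (π'.symm a) := by
      intro a
      have := congr_fun h1 a
      simp only [EmbeddingLike.apply_eq_iff_eq, Prod.mk.injEq] at this
      exact this.2
    have e1 := stdE_unique r (fun a => r (π.symm a)) π (fun i => by simp) hπ.1
    have e2 := stdE_unique r (fun a => r (π.symm a)) π' (fun i => by simp [h3]) hπ'.1
    rw [e1, ← e2]
  · rintro ⟨M, hM⟩
    have hM1 : ∀ i, i < N → ∑ j ∈ range N, M i j = #{a | s a = i} := hM.2.1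
    have hM2 : ∀ j, j < N → ∑ i ∈ range N, M i j = #{a | r a = j} := hM.2.2
    -- the multiset of the matrix
    let m : Multiset (ℕ ×ₗ ℕ) := ∑ x ∈ range N, ∑ y ∈ range N,
      Multiset.replicate (M x y) (toLex (x, y))
    have hcard : m.card = n := by
      simp only [m, Multiset.card_sum, Multiset.card_replicate]
      rw [sum_congr rfl (fun x hx => hM1 x (mem_range.1 hx)),
        ← Finset.card_eq_sum_card_fiberwise (fun a _ => by simpa using hsN _)]
      simp
    have hcount : ∀ x y, m.count (toLex (x, y)) = M x y := by
      intro x y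
      simp only [m, Multiset.count_sum', Multiset.count_replicate]
      by_cases hxy : x < N ∧ y < N
      · rw [Finset.sum_eq_single x, Finset.sum_eq_single y]
        · simp
        · intro b _ hb
          rw [if_neg]
          intro h
          simp only [EmbeddingLike.apply_eq_iff_eq, Prod.mk.injEq] at h
          exact hb h.2
        · intro h; exact absurd (mem_range.2 hxy.2) h
        · intro b _ hb
          apply Finset.sum_eq_zero
          intro c _
          rw [if_neg]
          intro h
          simp only [EmbeddingLike.apply_eq_iff_eq, Prod.mk.injEq] at h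
          exact hb h.1
        · intro h; exact absurd (mem_range.2 hxy.1) h
      · rw [hM.1 x y (by omega)]
        apply Finset.sum_eq_zero
        intro b hb
        apply Finset.sum_eq_zero
        intro c hc
        rw [if_neg]
        intro h
        simp only [EmbeddingLike.apply_eq_iff_eq, Prod.mk.injEq] at h
        rw [mem_range] at hb hc
        omega
    obtain ⟨f, hf, hfm⟩ := mono_exists m hcard
    have hfc : ∀ x y, #{a | f a = toLex (x, y)} = M x y := by
      intro x y
      rw [← count_map_univ, hfm, hcount]
    have hfN : ∀ a, (ofLex (f a)).1 < N ∧ (ofLex (f a)).2 < N := by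
      intro a
      by_contra hc
      have h1 := hfc (ofLex (f a)).1 (ofLex (f a)).2
      rw [hM.1 _ _ (by omega), Finset.card_eq_zero, Finset.filter_eq_empty_iff] at h1
      exact h1 (mem_univ a) rfl
    have hf1 : (fun a => (ofLex (f a)).1) = s := by
      apply mono_unique _ _ _ hs
      · ext c
        rw [count_map_univ, count_map_univ]
        by_cases hc : c < N
        · rw [← hM1 c hc, Finset.card_eq_sum_card_fiberwise
            (f := fun a => (ofLex (f a)).2) (t := range N) (fun a _ => by simpa using (hfN a).2)]
          refine sum_congr rfl fun y _ => ?_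
          rw [← hfc c y, Finset.filter_filter]
          congr 1
          ext a
          simp only [mem_filter, mem_univ, true_and]
          constructor
          · rintro ⟨h1, h2⟩; rw [← h1, ← h2]; rfl
          · intro h; rw [h]; exact ⟨rfl, rfl⟩
        · rw [Finset.filter_eq_empty_iff.2, Finset.filter_eq_empty_iff.2]
          · intro a _ h; have := hsN a; omega
          · intro a _ h; have := (hfN a).1; omega
      · intro a b hab
        have h := hf hab
        rw [Prod.Lex.le_iff] at h
        rcases h with h | h
        · exact h.le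
        · exact h.1.le
    set w : Fin n → ℕ := fun a => (ofLex (f a)).2 with hw
    have hwc : ∀ c, #{a | r a = c} = #{a | w a = c} := by
      intro c
      by_cases hc : c < N
      · rw [← hM2 c hc, Finset.card_eq_sum_card_fiberwise (s := {a | w a = c})
            (f := fun a => (ofLex (f a)).1) (t := range N) (fun a _ => by simpa using (hfN a).1)]
        refine sum_congr rfl fun x _ => ?_
        rw [← hfc x c, Finset.filter_filter]
        congr 1
        ext a
        simp only [mem_filter, mem_univ, true_and, hw]
        constructor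
        · intro h; rw [h]; exact ⟨rfl, rfl⟩
        · rintro ⟨h1, h2⟩; rw [← h1, ← h2]; rfl
      · rw [Finset.filter_eq_empty_iff.2, Finset.filter_eq_empty_iff.2]
        · intro a _ h; have := (hfN a).2; simp only [hw] at h; omega
        · intro a _ h; have := hrN a; omega
    have hlex : ∀ a b, a < b → s a = s b → w a ≤ w b := by
      intro a b hab hsab
      have h := hf hab.le
      rw [Prod.Lex.le_iff] at h
      have e1 : (ofLex (f a)).1 = s a := congr_fun hf1 a
      have e2 : (ofLex (f b)).1 = s b := congr_fun hf1 b
      rcases h with h | h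
      · omega
      · exact h.2
    have hv := stdE_val r w hwc
    obtain ⟨-, hinc⟩ := stdE_spec r w (stdE r w) hv
    set π := stdE r w with hπ
    have hrw : ∀ a, r (π.symm a) = w a := by
      intro a
      rw [← hv (π.symm a), Equiv.apply_symm_apply]
    have hinc' : IncOn s π.symm := by
      intro a b hab hsab
      have h1 := hlex a b hab hsab
      rw [← hrw, ← hrw] at h1
      rcases h1.eq_or_lt with h2 | h2
      · by_contra hc
        have hne : π.symm a ≠ π.symm b := fun h => hab.ne (π.symm.injective h)
        have h3 := hinc _ _ (lt_of_le_of_ne (not_lt.1 hc) hne.symm) h2.symm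
        simp only [Equiv.apply_symm_apply] at h3
        exact lt_asymm hab h3
      · by_contra hc
        exact absurd (hr (not_lt.1 hc)) (by omega)
    refine ⟨⟨π, hinc, hinc'⟩, ?_⟩
    apply Subtype.ext
    simp only
    funext x y
    rw [← hfc x y, pm]
    congr 1
    ext a
    simp only [mem_filter, mem_univ, true_and, hrw]
    have e1 : (ofLex (f a)).1 = s a := congr_fun hf1 a
    rw [← e1]
    constructor
    · rintro ⟨h1, h2⟩; rw [← h1, ← h2]; rfl
    · intro h; rw [hw]; simp only [h]; exact ⟨rfl, rfl⟩

end V11134.VR
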