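import Mathlib
import Pool.Agent.V11176.Gessel
import Pool.Agent.H634R3.Kostka.Tab
import Pool.Agent.V11134.VR.PermMat

set_option autoImplicit false

/-!
# Tableaux, patterns and the Cauchy identity
-/

open Finset

namespace V11134.VR

open V11176 V11176.Content V11176.Gessel Pool.Agent.H634R3.KF

variable {n : ℕ}

theorem rowLen_anti (μ : YoungDiagram) : Antitone μ.rowLen := fun _ _ h => μ.rowLen_anti _ _ h

theorem rowLen_zero (μ : YoungDiagram) (N : ℕ) (h : μ.cells.card ≤ N) (j : ℕ) (hj : N ≤ j) :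
    μ.rowLen j = 0 := by
  by_contra hc
  have h0 : (j, 0) ∈ μ := by
    rw [YoungDiagram.mem_iff_lt_rowLen]; omega
  have hsub : (range (j + 1)).image (fun i => (i, 0)) ⊆ μ.cells := by
    intro c hc
    rw [mem_image] at hc
    obtain ⟨i, hi, rfl⟩ := hc
    rw [mem_range] at hi
    exact μ.up_left_mem (by omega) le_rfl h0
  have h1 := card_le_card hsub
  rw [card_image_of_injective _ (fun a b h => by simpa using h), card_range] at h1
  omega

theorem content_val (μ : YoungDiagram) (T : ℕ → ℕ → ℕ) (y : ℕ) :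
    (∑ c ∈ μ.cells, Finsupp.single (T c.1 c.2) 1 : ℕ →₀ ℕ) y =
      Set.ncard {x : ℕ × ℕ | x.2 < μ.rowLen x.1 ∧ T x.1 x.2 = y} := by
  have h1 : {x : ℕ × ℕ | x.2 < μ.rowLen x.1 ∧ T x.1 x.2 = y} =
      ↑(μ.cells.filter (fun c => T c.1 c.2 = y)) := by
    ext ⟨i, j⟩
    simp only [Set.mem_ofPred_eq, coe_filter, YoungDiagram.mem_cells]
    rw [YoungDiagram.mem_iff_lt_rowLen]
  rw [h1, Set.ncard_coe_finset, Finsupp.finsetSum_apply, card_filter]
  refine sum_congr rfl fun c _ => ?_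
  rw [Finsupp.single_apply]

theorem card_SSYT (μ : YoungDiagram) (N : ℕ) (hN : μ.cells.card ≤ N) (e : ℕ →₀ ℕ)
    (he : ∀ j, N ≤ j → e j = 0) :
    Nat.card {T : SemistandardYoungTableau μ //
      ∑ c ∈ μ.cells, Finsupp.single (T c.1 c.2) 1 = e} = Nat.card (GTP N μ.rowLen e) := by
  have h0 : Nat.card (GTP N μ.rowLen e) = K N μ.rowLen e := by
    rw [K, Nat.card_coe_set_eq]
  rw [h0, ← card_SST (rowLen_anti μ) (rowLen_zero μ N hN) he]
  refine Nat.card_eq_of_bijective
    (fun T : {T : SemistandardYoungTableau μ //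
      ∑ c ∈ μ.cells, Finsupp.single (T c.1 c.2) 1 = e} =>
      (⟨fun x => T.1 x.1 x.2, ?_⟩ : SST μ.rowLen e)) ⟨?_, ?_⟩
  · obtain ⟨T, hT⟩ := T
    refine ⟨?_, ?_, ?_, ?_⟩
    · intro x hx
      exact T.zeros (by rw [YoungDiagram.mem_iff_lt_rowLen]; exact hx)
    · intro i j h
      exact T.row_weak (Nat.lt_succ_self j) (YoungDiagram.mem_iff_lt_rowLen.2 h)
    · intro i j h
      exact T.col_strict (Nat.lt_succ_self i) (YoungDiagram.mem_iff_lt_rowLen.2 h)
    · intro c
      have h1 := content_val μ (fun i j => T i j) c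
      exact h1.symm.trans (DFunLike.congr_fun hT c)
  · rintro ⟨T, hT⟩ ⟨T', hT'⟩ h
    simp only [Subtype.mk.injEq] at h
    apply Subtype.ext
    apply SemistandardYoungTableau.ext
    intro i j
    exact congr_fun h (i, j)
  · rintro ⟨T, hT⟩
    have hrow : ∀ i j1 j2, j1 ≤ j2 → j2 < μ.rowLen i → T (i, j1) ≤ T (i, j2) := by
      intro i j1 j2 h
      induction j2, h using Nat.le_induction with
      | base => intro _; exact le_rfl
      | succ d hd ih => intro h; exact (ih (by omega)).trans (hT.2.1 i d h)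
    have hcol : ∀ i1 i2 j, i1 ≤ i2 → j < μ.rowLen i2 → T (i1, j) + (i2 - i1) ≤ T (i2, j) := by
      intro i1 i2 j h
      induction i2, h using Nat.le_induction with
      | base => intro _; simp
      | succ d hd ih =>
        intro h
        have h1 := ih (lt_of_lt_of_le h (rowLen_anti μ (Nat.le_succ d)))
        have h2 := hT.2.2.1 d j h
        omega
    refine ⟨⟨⟨fun i j => T (i, j), ?_, ?_, ?_⟩, ?_⟩, ?_⟩
    · intro i j1 j2 hj hc
      exact hrow i j1 j2 hj.le (YoungDiagram.mem_iff_lt_rowLen.1 hc)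
    · intro i1 i2 j hi hc
      have := hcol i1 i2 j hi.le (YoungDiagram.mem_iff_lt_rowLen.1 hc)
      omega
    · intro i j hc
      exact hT.1 (i, j) (fun h => hc (YoungDiagram.mem_iff_lt_rowLen.2 h))
    · ext c
      have h1 := content_val μ (fun i j => T (i, j)) c
      have h2 := hT.2.2.2 c
      refine Eq.trans h1 (Eq.trans ?_ h2)
      rfl
    · rfl

/-- the diagram of a partition -/
def diag (N : ℕ) (lam : ℕ → ℕ) (h : Antitone lam) : YoungDiagram where
  cells := ((range N) ×ˢ (range (lam 0))).filter (fun c => c.2 < lam c.1)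
  isLowerSet := by
    rintro ⟨i, j⟩ ⟨i', j'⟩ hle hc
    simp only [coe_filter, mem_product, mem_range, Set.mem_ofPred_eq, Prod.mk_le_mk] at hle hc ⊢
    have h1 := h hle.1
    have h2 := h (Nat.zero_le i')
    omega

theorem diag_rowLen (N : ℕ) (lam : ℕ → ℕ) (h : Antitone lam) (hz : ∀ j, N ≤ j → lam j = 0) :
    (diag N lam h).rowLen = lam := by
  have key : ∀ i j, j < (diag N lam h).rowLen i ↔ j < lam i := by
    intro i j
    rw [← YoungDiagram.mem_iff_lt_rowLen, ← YoungDiagram.mem_cells]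
    simp only [diag, mem_filter, mem_product, mem_range]
    constructor
    · rintro ⟨_, h2⟩; exact h2
    · intro h2
      refine ⟨⟨?_, lt_of_lt_of_le h2 (h (Nat.zero_le i))⟩, h2⟩
      by_contra hc
      rw [hz i (by omega)] at h2
      omega
  funext i
  have h1 := key i (lam i)
  have h2 := key i ((diag N lam h).rowLen i)
  omega

theorem diag_card (N : ℕ) (lam : ℕ → ℕ) (h : Antitone lam) :
    (diag N lam h).cells.card = ∑ k ∈ range N, lam k := by
  simp only [diag]
  rw [card_filter, sum_product]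
  refine sum_congr rfl fun i _ => ?_
  rw [← card_filter]
  have : (range (lam 0)).filter (fun j => j < lam i) = range (lam i) := by
    ext j
    simp only [mem_filter, mem_range]
    have := h (Nat.zero_le i)
    omega
  rw [this, card_range]

theorem yd_ext (μ ν : YoungDiagram) (h : μ.rowLen = ν.rowLen) : μ = ν := by
  ext ⟨i, j⟩
  rw [YoungDiagram.mem_cells, YoungDiagram.mem_cells, YoungDiagram.mem_iff_lt_rowLen,
    YoungDiagram.mem_iff_lt_rowLen, h]

theorem yd_finite (n : ℕ) : {μ : YoungDiagram | μ.card = n}.Finite := by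
  have hinj : Set.InjOn (fun μ : YoungDiagram => μ.cells) {μ : YoungDiagram | μ.card = n} := by
    intro μ _ ν _ h
    exact YoungDiagram.ext h
  apply Set.Finite.of_finite_image _ hinj
  apply (Finset.finite_toSet ((range n ×ˢ range n).powerset)).subset
  rintro _ ⟨μ, hμ, rfl⟩
  simp only [coe_powerset, Set.mem_preimage, Set.mem_powerset_iff, coe_subset]
  have hμ' : μ.cells.card = n := hμ
  rintro ⟨i, j⟩ hc
  rw [mem_product, mem_range, mem_range]
  constructor
  · by_contra h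
    have h1 := rowLen_zero μ n hμ'.le i (not_lt.1 h)
    have h2 := YoungDiagram.mem_iff_lt_rowLen.1 hc
    omega
  · by_contra h
    have hsub : (range (j + 1)).image (fun k => (i, k)) ⊆ μ.cells := by
      intro c hc'
      rw [mem_image] at hc'
      obtain ⟨k, hk, rfl⟩ := hc'
      rw [mem_range] at hk
      exact μ.up_left_mem le_rfl (by omega) hc
    have h1 := card_le_card hsub
    rw [card_image_of_injective _ (fun a b h => by simpa using h), card_range] at h1
    simp only at h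
    omega

/-- all diagrams of size `n` -/
noncomputable def YD (n : ℕ) : Finset YoungDiagram := (yd_finite n).toFinset

theorem mem_YD (n : ℕ) (μ : YoungDiagram) : μ ∈ YD n ↔ μ.cells.card = n := by
  rw [YD, Set.Finite.mem_toFinset]
  rfl

theorem gtp_anti {N : ℕ} {lam β : ℕ → ℕ} {x : ℕ → ℕ → ℕ} (hx : x ∈ GTP N lam β) :
    Antitone lam := by
  apply antitone_nat_of_succ_le
  intro k
  rcases N with _ | N
  · have h1 := hx.1
    have h2 := hx.2.1 0 le_rfl
    rw [← h2, ← h2, h1, h1]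
  · have h1 := hx.2.2.1 N (by omega) k
    have h2 := hx.2.1 (N + 1) le_rfl
    rw [h2, h2] at h1
    omega

theorem gtp_size {N : ℕ} {lam β : ℕ → ℕ} {x : ℕ → ℕ → ℕ} (hx : x ∈ GTP N lam β) :
    ∑ k ∈ range N, lam k = ∑ k ∈ range N, β k := by
  rw [← gt_sum_eq hx N le_rfl]
  exact sum_congr rfl fun k _ => (hx.2.1 N le_rfl k).symm

theorem card_Prs (N n : ℕ) (α β : ℕ → ℕ) (hβ : ∑ k ∈ range N, β k = n) :
    Nat.card (Prs N α β) =
      ∑ μ ∈ YD n, Nat.card (GTP N μ.rowLen β) * Nat.card (GTP N μ.rowLen α) := by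
  have hfin : ∀ (lam nu : ℕ → ℕ), Finite (GTP N lam nu) := fun lam nu => finite_GTP N lam nu
  have h1 : ∑ μ ∈ YD n, Nat.card (GTP N μ.rowLen β) * Nat.card (GTP N μ.rowLen α) =
      Nat.card (Σ μ : YD n, (GTP N μ.1.rowLen β × GTP N μ.1.rowLen α)) := by
    rw [Nat.card_sigma, ← Finset.sum_coe_sort (YD n)]
    refine sum_congr rfl fun μ _ => ?_
    rw [Nat.card_prod]
  rw [h1]
  symm
  refine Nat.card_eq_of_bijective
    (fun p : (Σ μ : YD n, (GTP N μ.1.rowLen β × GTP N μ.1.rowLen α)) =>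
      (⟨(p.1.1.rowLen, p.2.1.1, p.2.2.1), p.2.1.2, p.2.2.2⟩ : Prs N α β)) ⟨?_, ?_⟩
  · rintro ⟨⟨μ, hμ⟩, ⟨x, hx⟩, ⟨y, hy⟩⟩ ⟨⟨ν, hν⟩, ⟨x', hx'⟩, ⟨y', hy'⟩⟩ h
    simp only [Subtype.mk.injEq, Prod.mk.injEq] at h
    obtain ⟨h1, h2, h3⟩ := h
    have := yd_ext μ ν h1
    subst this
    subst h2
    subst h3
    rfl
  · rintro ⟨⟨lam, x, y⟩, hx, hy⟩
    simp only at hx hy
    have ha := gtp_anti hx
    have hz : ∀ j, N ≤ j → lam j = 0 := gt_lam_zero hx
    have hrl := diag_rowLen N lam ha hz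
    have hc : diag N lam ha ∈ YD n := by
      rw [mem_YD, diag_card, gtp_size hx, hβ]
    refine ⟨⟨⟨diag N lam ha, hc⟩, ⟨x, by rw [hrl]; exact hx⟩, ⟨y, by rw [hrl]; exact hy⟩⟩, ?_⟩
    apply Subtype.ext
    simp only [Prod.mk.injEq, and_true]
    exact hrl

/-- The Cauchy identity in coefficient form. -/
theorem cauchy (r s : Fin n → ℕ) (hr : Monotone r) (hs : Monotone s) (e : ℕ →₀ ℕ)
    (he : ∑ k, Finsupp.single (r k) 1 = e) :
    Nat.card (DD r s) = ∑ μ ∈ YD n, #{q ∈ stdSet μ n | desQ q ⊆ asc s} *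
      Nat.card {T : SemistandardYoungTableau μ //
        ∑ c ∈ μ.cells, Finsupp.single (T c.1 c.2) 1 = e} := by
  obtain ⟨N, hN, hrN, hsN⟩ : ∃ N, n ≤ N ∧ (∀ a, r a < N) ∧ (∀ a, s a < N) := by
    refine ⟨n + ∑ a, (r a + 1) + ∑ a, (s a + 1), by omega, fun a => ?_, fun a => ?_⟩
    · have := Finset.single_le_sum (f := fun a => r a + 1) (fun i _ => Nat.zero_le _) (mem_univ a)
      omega
    · have := Finset.single_le_sum (f := fun a => s a + 1) (fun i _ => Nat.zero_le _) (mem_univ a)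
      omega
  have hR : ∑ k ∈ range N, #{a | r a = k} = n := by
    rw [← card_eq_sum_card_fiberwise (fun a _ => by simpa using hrN a)]
    simp
  rw [card_DD r s hr hs N hrN hsN, rsk, card_Prs N n _ _ hR]
  refine sum_congr rfl fun μ hμ => ?_
  rw [mem_YD] at hμ
  rw [mul_comm]
  have e1 : ∀ (r : Fin n → ℕ), (fun y => #{a | r a = y}) =
      ⇑(∑ k, Finsupp.single (r k) 1 : ℕ →₀ ℕ) := by
    intro r
    funext y
    rw [content_apply]
  have hz : ∀ (r : Fin n → ℕ), (∀ a, r a < N) → ∀ j, N ≤ j →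
      (∑ k, Finsupp.single (r k) 1 : ℕ →₀ ℕ) j = 0 := by
    intro r hr j hj
    rw [content_apply, card_eq_zero, filter_eq_empty_iff]
    intro a _ h
    have := hr a
    omega
  rw [e1 r, e1 s, ← card_SSYT μ N (by omega) _ (hz r hrN), ← card_SSYT μ N (by omega) _ (hz s hsN),
    gessel hμ s hs _ rfl, he]

end V11134.VR
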