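import Mathlib
import Pool.Agent.V11134.VR.Shape
import Pool.Agent.V11134.VR.Defs

set_option autoImplicit false

/-!
# Unions of inverse descent classes are Schur-positive
-/

open Finset

namespace V11134.VR

open V11176 V11176.Content V11176.Gessel Pool.Agent.H634R3.KF

variable {n : ℕ}

/-- Moebius inversion on subsets -/
theorem mob (F G : Finset ℕ → ℕ) (U : Finset ℕ)
    (h : ∀ J ⊆ U, ∑ X ∈ J.powerset, F X = ∑ X ∈ J.powerset, G X) : ∀ J ⊆ U, F J = G J := by
  intro J
  induction J using Finset.strongInduction with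
  | _ J ih =>
    intro hJ
    have h1 := h J hJ
    rw [← Finset.sum_erase_add _ _ (mem_powerset_self J),
      ← Finset.sum_erase_add _ _ (mem_powerset_self J)] at h1
    have h2 : ∑ X ∈ J.powerset.erase J, F X = ∑ X ∈ J.powerset.erase J, G X := by
      refine sum_congr rfl fun X hX => ?_
      rw [mem_erase, mem_powerset] at hX
      exact ih X (lt_of_le_of_ne hX.2 hX.1) (hX.2.trans hJ)
    omega

theorem des_iff (π : Equiv.Perm (Fin n)) (r : Fin n → ℕ) (hr : Monotone r) :
    des π ⊆ asc r ↔ IncOn r π := by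
  constructor
  · intro h
    have h1 : asc (fun a => n - (π a : ℕ)) ⊆ asc r := by
      intro j hj
      have hj' := mem_Icc.1 (asc_sub _ hj)
      rw [mem_asc _ j hj'.1 (by omega)] at hj
      apply h
      rw [mem_des π j hj'.1 (by omega), Fin.lt_def]
      have := (π ⟨j, by omega⟩).2
      omega
    intro a b hab he
    have h2 : n - (π b : ℕ) ≤ n - (π a : ℕ) :=
      rows_anti (fun a => n - (π a : ℕ)) r hr h1 a b hab.le he
    have h3 : π a ≠ π b := fun h => hab.ne (π.injective h)
    have h4 : (π a : ℕ) ≠ π b := fun h => h3 (Fin.ext h)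
    rw [Fin.lt_def]
    have := (π a).2
    have := (π b).2
    omega
  · intro h j hj
    have hj' := mem_Icc.1 (des_sub π hj)
    have hjn : j < n := by omega
    rw [mem_des π j hj'.1 hjn] at hj
    rw [mem_asc r j hj'.1 hjn]
    have h1 : (⟨j - 1, by omega⟩ : Fin n) < ⟨j, hjn⟩ := by rw [Fin.lt_def]; simp only; omega
    rcases (hr h1.le).eq_or_lt with h2 | h2
    · exact absurd (h _ _ h1 h2) (lt_asymm hj)
    · exact h2

theorem asc_exists (J : Finset ℕ) (hJ : J ⊆ Icc 1 (n - 1)) :
    ∃ s : Fin n → ℕ, Monotone s ∧ asc s = J := by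
  refine ⟨fun a => #{j ∈ J | j ≤ (a : ℕ)}, ?_, ?_⟩
  · intro a b hab
    apply card_le_card
    intro j hj
    rw [mem_filter] at hj ⊢
    have : (a : ℕ) ≤ b := hab
    exact ⟨hj.1, by omega⟩
  · ext j
    by_cases hj : j ∈ Icc 1 (n - 1)
    · have hj' := mem_Icc.1 hj
      have hjn : j < n := by omega
      rw [mem_asc _ j hj'.1 hjn]
      simp only
      constructor
      · intro h
        by_contra hc
        have : ({x ∈ J | x ≤ j} : Finset ℕ) = {x ∈ J | x ≤ j - 1} := by
          apply filter_congr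
          intro x hx
          have : x ≠ j := fun h => hc (h ▸ hx)
          omega
        rw [this] at h
        omega
      · intro h
        apply card_lt_card
        rw [ssubset_iff_of_subset]
        · refine ⟨j, by simp [h], ?_⟩
          simp only [mem_filter, not_and]
          omega
        · intro x hx
          rw [mem_filter] at hx ⊢
          exact ⟨hx.1, by omega⟩
    · constructor
      · intro h; exact absurd (asc_sub _ h) hj
      · intro h; exact absurd (hJ h) hj

/-- number of semistandard tableaux of shape `μ` and content `e` -/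
noncomputable def kos (μ : YoungDiagram) (e : ℕ →₀ ℕ) : ℕ :=
  Nat.card {T : SemistandardYoungTableau μ // ∑ c ∈ μ.cells, Finsupp.single (T c.1 c.2) 1 = e}

theorem sum_fib {α : Type*} (S : Finset α) (f : α → Finset ℕ) (J : Finset ℕ) :
    ∑ X ∈ J.powerset, #{x ∈ S | f x = X} = #{x ∈ S | f x ⊆ J} := by
  rw [card_eq_sum_card_fiberwise (s := {x ∈ S | f x ⊆ J}) (f := f) (t := J.powerset)
    (fun x hx => by simpa using (mem_filter.1 hx).2)]
  refine sum_congr rfl fun X hX => ?_
  rw [filter_filter]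
  congr 1
  apply filter_congr
  intro x _
  rw [mem_powerset] at hX
  constructor
  · intro h; exact ⟨h ▸ hX, h⟩
  · intro h; exact h.2

theorem class_count (r : Fin n → ℕ) (hr : Monotone r) (e : ℕ →₀ ℕ)
    (he : ∑ k, Finsupp.single (r k) 1 = e) (J : Finset ℕ) (hJ : J ⊆ Icc 1 (n - 1)) :
    #{π : Equiv.Perm (Fin n) | des π ⊆ asc r ∧ des π.symm = J} =
      ∑ μ ∈ YD n, #{q ∈ stdSet μ n | desQ q = J} * kos μ e := by
  classical
  refine mob (fun J => #{π : Equiv.Perm (Fin n) | des π ⊆ asc r ∧ des π.symm = J})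
    (fun J => ∑ μ ∈ YD n, #{q ∈ stdSet μ n | desQ q = J} * kos μ e) (Icc 1 (n - 1)) ?_ J hJ
  intro J hJ
  obtain ⟨s, hs, rfl⟩ := asc_exists J hJ
  have h1 := cauchy r s hr hs e he
  have h2 : Nat.card (DD r s) =
      #{π : Equiv.Perm (Fin n) | des π ⊆ asc r ∧ des π.symm ⊆ asc s} := by
    rw [Nat.card_coe_set_eq, ← Set.ncard_coe_finset]
    congr 1
    ext π
    simp only [DD, Set.mem_ofPred_eq, coe_filter, mem_univ, true_and]
    rw [des_iff π r hr, des_iff π.symm s hs]
  have h3 := sum_fib (univ.filter (fun π : Equiv.Perm (Fin n) => des π ⊆ asc r))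
    (fun π => des π.symm) (asc s)
  simp only [filter_filter] at h3
  rw [h3, ← h2, h1]
  rw [sum_comm]
  refine sum_congr rfl fun μ _ => ?_
  rw [← sum_mul, sum_fib]
  rfl

theorem family_count (r : Fin n → ℕ) (hr : Monotone r) (e : ℕ →₀ ℕ)
    (he : ∑ k, Finsupp.single (r k) 1 = e) (P : Finset ℕ → Prop) [DecidablePred P] :
    #{π : Equiv.Perm (Fin n) | des π ⊆ asc r ∧ P (des π.symm)} =
      ∑ μ ∈ YD n, #{q ∈ stdSet μ n | P (desQ q)} * kos μ e := by
  have key : ∀ {α : Type} (S : Finset α) (f : α → Finset ℕ) (_ : ∀ x ∈ S, f x ⊆ Icc 1 (n - 1)),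
      #{x ∈ S | P (f x)} = ∑ X ∈ (Icc 1 (n - 1)).powerset with P X, #{x ∈ S | f x = X} := by
    intro α S f hf
    rw [card_eq_sum_card_fiberwise (s := {x ∈ S | P (f x)}) (f := f)
      (t := (Icc 1 (n - 1)).powerset.filter P) (fun x hx => by
        rw [coe_filter] at hx
        simp only [coe_filter, mem_powerset, Set.mem_ofPred_eq]
        exact ⟨hf x hx.1, hx.2⟩)]
    refine sum_congr rfl fun X hX => ?_
    rw [filter_filter]
    congr 1
    apply filter_congr
    intro x _
    rw [mem_filter] at hX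
    constructor
    · intro h; exact h.2
    · intro h; exact ⟨h ▸ hX.2, h⟩
  have h1 := key (univ.filter (fun π : Equiv.Perm (Fin n) => des π ⊆ asc r))
    (fun π => des π.symm) (fun π _ => des_sub _)
  simp only [filter_filter] at h1
  rw [h1, sum_congr rfl (fun X hX => class_count r hr e he X
    (mem_powerset.1 (mem_filter.1 hX).1)), sum_comm]
  refine sum_congr rfl fun μ _ => ?_
  rw [← sum_mul, key (stdSet μ n) desQ (fun q _ => asc_sub _)]

/-- The finishing lemma. -/
theorem schurPositive_of (S : Finset (Equiv.Perm (Fin n))) (a : YoungDiagram → ℕ)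
    (h : ∀ (r : Fin n → ℕ) (e : ℕ →₀ ℕ), Monotone r → ∑ k, Finsupp.single (r k) 1 = e →
      #{π ∈ S | des π ⊆ asc r} = ∑ μ ∈ YD n, a μ * kos μ e) : SchurPositive n (Q S) := by
  classical
  let b : YoungDiagram →₀ ℕ := Finsupp.onFinset (YD n) (fun μ => if μ ∈ YD n then a μ else 0)
    (fun μ hμ => by by_contra hc; exact hμ (if_neg hc))
  have hsub : b.support ⊆ YD n := Finsupp.support_onFinset_subset
  refine ⟨b, fun μ hμ => (mem_YD n μ).1 (hsub hμ), ?_⟩
  have e1 : ∑ μ ∈ b.support, (b μ : ℤ) • schur μ = ∑ μ ∈ YD n, (a μ : ℤ) • schur μ := by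
    rw [sum_subset hsub (fun μ _ hμ => by rw [Finsupp.notMem_support_iff.1 hμ]; simp)]
    refine sum_congr rfl fun μ hμ => ?_
    have : b μ = a μ := if_pos hμ
    rw [this]
  rw [e1]
  apply MvPowerSeries.ext
  intro e
  rw [map_sum]
  by_cases he : ∑ x ∈ e.support, e x = n
  · obtain ⟨r, hr, hre⟩ := content_exists e he
    rw [Q_coeff S r hr e hre, h r e hr hre]
    push_cast
    refine sum_congr rfl fun μ _ => ?_
    rw [map_smul, smul_eq_mul]
    rfl
  · rw [Q_coeff_ne S e he]
    symm
    apply sum_eq_zero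
    intro μ hμ
    rw [map_smul, schur_coeff_ne μ ((mem_YD n μ).1 hμ) e he, smul_zero]

end V11134.VR
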