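import Mathlib

set_option autoImplicit false

/-!
# The word bijection behind `C_n (B ⊕ 1)`
-/

open Finset

namespace V11134.VR

variable {n : ℕ}

/-- value of a word at a natural index -/
def V (z : Fin n → ℕ) (i : ℕ) : ℕ := if h : i < n then z ⟨i, h⟩ else 0

theorem V_eq (z : Fin n → ℕ) (i : ℕ) (h : i < n) : V z i = z ⟨i, h⟩ := dif_pos h

/-- all rearrangements of the word `r` -/
def Wd (r : Fin n → ℕ) : Finset (Fin n → ℕ) :=
  univ.image (fun u : Equiv.Perm (Fin n) => r ∘ u)

theorem Wd_comp {r z : Fin n → ℕ} (hz : z ∈ Wd r) (ρ : Equiv.Perm (Fin n)) : z ∘ ρ ∈ Wd r := by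
  rw [Wd, mem_image] at hz ⊢
  obtain ⟨u, -, rfl⟩ := hz
  exact ⟨ρ.trans u, mem_univ _, rfl⟩

/-- block condition, position `n` being free -/
def Rc (J : Finset ℕ) (z : Fin n → ℕ) : Prop :=
  ∀ j, 1 ≤ j → j + 2 ≤ n → j ∉ J → V z (j - 1) ≤ V z j

/-- `t` is the last index with letter `T` -/
def lastT (T : ℕ) (z : Fin n → ℕ) (t : ℕ) : Prop :=
  t < n ∧ V z t = T ∧ ∀ i, t < i → i < n → V z i ≠ T

/-- block condition for the word read cyclically from the index `t + 1` -/
def Lc (J : Finset ℕ) (z : Fin n → ℕ) (t : ℕ) : Prop :=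
  ∀ j, 1 ≤ j → j + 2 ≤ n → j ∉ J →
    (t + j + 1 < n → V z (t + j) ≤ V z (t + j + 1)) ∧
    (t + j + 1 = n → V z (n - 1) < V z 0) ∧
    (n ≤ t + j → V z (t + j - n) ≤ V z (t + j + 1 - n))

/-- the rearrangement of positions -/
def rho (n p c i : ℕ) : ℕ :=
  if i < c - p then p - 1 + i else if i < n - 1 - p then p + i else
    if i = n - 1 - p then c - 1 else if i < n - 1 then i + p - n else i

/-- its inverse -/
def rinv (n p c k : ℕ) : ℕ :=
  if k < p - 1 then k + n - p else if k < c - 1 then k - (p - 1) else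
    if k = c - 1 then n - 1 - p else if k < n - 1 then k - p else k

/-- the rearrangement as a permutation -/
def rhoE (n p c : ℕ) (h : 1 ≤ p ∧ p ≤ c ∧ c + 1 ≤ n) : Equiv.Perm (Fin n) where
  toFun i := ⟨rho n p c i, by
    have := i.2
    unfold rho
    split_ifs <;> omega⟩
  invFun i := ⟨rinv n p c i, by
    have := i.2
    unfold rinv
    split_ifs <;> omega⟩
  left_inv i := by
    have := i.2
    apply Fin.ext
    simp only [rho, rinv]
    split_ifs <;> omega
  right_inv i := by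
    have := i.2
    apply Fin.ext
    simp only [rho, rinv]
    split_ifs <;> omega

theorem V_rho (z : Fin n → ℕ) (p c : ℕ) (h : 1 ≤ p ∧ p ≤ c ∧ c + 1 ≤ n) (i : ℕ) (hi : i < n) :
    V (z ∘ rhoE n p c h) i = V z (rho n p c i) := by
  have h2 : rho n p c i < n := (rhoE n p c h ⟨i, hi⟩).2
  rw [V_eq _ i hi, V_eq z _ h2]
  rfl

theorem V_rinv (z : Fin n → ℕ) (p c : ℕ) (h : 1 ≤ p ∧ p ≤ c ∧ c + 1 ≤ n) (i : ℕ) (hi : i < n) :
    V (z ∘ (rhoE n p c h).symm) i = V z (rinv n p c i) := by
  have h2 : rinv n p c i < n := ((rhoE n p c h).symm ⟨i, hi⟩).2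
  rw [V_eq _ i hi, V_eq z _ h2]
  rfl

/-- cut data -/
def Cut (n : ℕ) (J : Finset ℕ) (p c : ℕ) : Prop :=
  1 ≤ p ∧ p ≤ c ∧ c + 1 ≤ n ∧ (c ∈ J ∨ c + 1 = n) ∧ (∀ j, p ≤ j → j < c → j ∉ J)

/-- characterisation of the data of a word of the first kind -/
def PR (J : Finset ℕ) (T : ℕ) (z : Fin n → ℕ) (p c : ℕ) : Prop :=
  Cut n J p c ∧ V z (c - 1) = T ∧ V z (n - 1) < V z (p - 1) ∧
    (2 ≤ p → p - 1 ∉ J → V z (p - 2) ≤ V z (n - 1)) ∧
    (∀ j ∈ J, 1 ≤ j → j < p → V z (j - 1) ≠ T)

/-- characterisation of the data of a word of the second kind -/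
def PL (J : Finset ℕ) (T : ℕ) (z : Fin n → ℕ) (p c : ℕ) : Prop :=
  Cut n J p c ∧ lastT T z (n - 1 - p)

theorem chain {J : Finset ℕ} {z : Fin n → ℕ} (hz : Rc J z) (a b : ℕ) (ha : 1 ≤ a) (hab : a ≤ b)
    (hb : b + 1 ≤ n) (h : ∀ j, a ≤ j → j < b → j ∉ J) : V z (a - 1) ≤ V z (b - 1) := by
  induction b, hab using Nat.le_induction with
  | base => exact le_rfl
  | succ d hd ih =>
    have h1 := ih (by omega) (fun j h1 h2 => h j h1 (by omega))
    have h2 := hz d (by omega) (by omega) (h d hd (by omega))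
    simp only [Nat.add_sub_cancel]
    omega

/-- forward direction -/
theorem fwd {J : Finset ℕ} {T : ℕ} {w : Fin n → ℕ} {p c : ℕ} (hT : ∀ i, V w i ≤ T)
    (h : 1 ≤ p ∧ p ≤ c ∧ c + 1 ≤ n)
    (hw : Rc J w) (hq : V w (n - 1) ≠ T) (hp : PR J T w p c) :
    Lc J (w ∘ rhoE n p c h) (n - 1 - p) ∧ lastT T (w ∘ rhoE n p c h) (n - 1 - p) ∧
      V (w ∘ rhoE n p c h) (n - 1) ≠ T := by
  obtain ⟨⟨-, -, -, hcJ, hJ⟩, hc, hpq, hp2, hJT⟩ := hp
  obtain ⟨h1, h2, h3⟩ := h
  have hne : ∀ d j, 1 ≤ j → j + d + 1 = p → V w (j - 1) ≠ T := by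
    intro d
    induction d with
    | zero =>
      intro j hj hjp
      by_cases hjJ : j ∈ J
      · exact hJT j hjJ hj (by omega)
      · have e1 := hp2 (by omega) (by rwa [show p - 1 = j by omega])
        rw [show p - 2 = j - 1 by omega] at e1
        have := hT (n - 1)
        omega
    | succ d ih =>
      intro j hj hjp
      by_cases hjJ : j ∈ J
      · exact hJT j hjJ hj (by omega)
      · have e1 := ih (j + 1) (by omega) (by omega)
        have e2 := hw j hj (by omega) hjJ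
        have e3 := hT j
        simp only [Nat.add_sub_cancel] at e1
        omega
  have hv := V_rho w p c ⟨h1, h2, h3⟩
  refine ⟨?_, ⟨by omega, ?_, ?_⟩, ?_⟩
  · intro j hj1 hj2 hjJ
    refine ⟨fun hx => ?_, fun hx => ?_, fun hx => ?_⟩
    · rw [hv _ (by omega), hv _ (by omega)]
      have e1 : rho n p c (n - 1 - p + j) = j - 1 := by
        unfold rho; split_ifs <;> omega
      rw [e1]
      by_cases hjp : j + 1 = p
      · have e2 : rho n p c (n - 1 - p + j + 1) = n - 1 := by
          unfold rho; split_ifs <;> omega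
        rw [e2]
        have := hp2 (by omega) (by rwa [show p - 1 = j by omega])
        rwa [show p - 2 = j - 1 by omega] at this
      · have e2 : rho n p c (n - 1 - p + j + 1) = j := by
          unfold rho; split_ifs <;> omega
        rw [e2]
        exact hw j hj1 hj2 hjJ
    · rw [hv _ (by omega), hv _ (by omega)]
      have hjp : j = p := by omega
      have hpc : p < c := by
        by_contra hc'
        have : c = p := by omega
        rcases hcJ with h | h
        · exact hjJ (by rw [hjp, ← this]; exact h)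
        · omega
      have e1 : rho n p c (n - 1) = n - 1 := by
        unfold rho; split_ifs <;> omega
      have e2 : rho n p c 0 = p - 1 := by
        unfold rho; split_ifs <;> omega
      rw [e1, e2]
      exact hpq
    · rw [hv _ (by omega), hv _ (by omega)]
      have hjp : p < j := by omega
      rcases lt_trichotomy j c with hjc | hjc | hjc
      · have e1 : rho n p c (n - 1 - p + j - n) = j - 1 - 1 := by
          unfold rho; split_ifs <;> omega
        have e2 : rho n p c (n - 1 - p + j + 1 - n) = j - 1 := by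
          unfold rho; split_ifs <;> omega
        rw [e1, e2]
        exact hw (j - 1) (by omega) (by omega) (hJ (j - 1) (by omega) (by omega))
      · exfalso
        rcases hcJ with h | h
        · exact hjJ (by rw [hjc]; exact h)
        · omega
      · have e1 : rho n p c (n - 1 - p + j - n) = j - 1 := by
          unfold rho; split_ifs <;> omega
        have e2 : rho n p c (n - 1 - p + j + 1 - n) = j := by
          unfold rho; split_ifs <;> omega
        rw [e1, e2]
        exact hw j hj1 hj2 hjJ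
  · rw [hv _ (by omega)]
    have e1 : rho n p c (n - 1 - p) = c - 1 := by
      unfold rho; split_ifs <;> omega
    rw [e1, hc]
  · intro i hi hin
    rw [hv _ hin]
    by_cases hin' : i = n - 1
    · have e1 : rho n p c i = n - 1 := by
        unfold rho; split_ifs <;> omega
      rw [e1]
      exact hq
    · have e1 : rho n p c i = (i + p - n + 1) - 1 := by
        unfold rho; split_ifs <;> omega
      rw [e1]
      exact hne (p - 1 - (i + p - n + 1)) (i + p - n + 1) (by omega) (by omega)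
  · rw [hv _ (by omega)]
    have e1 : rho n p c (n - 1) = n - 1 := by
      unfold rho; split_ifs <;> omega
    rw [e1]
    exact hq

/-- backward direction -/
theorem bwd {J : Finset ℕ} {T : ℕ} {z : Fin n → ℕ} {p c : ℕ} (hT : ∀ i, V z i ≤ T)
    (h : 1 ≤ p ∧ p ≤ c ∧ c + 1 ≤ n)
    (hz : Lc J z (n - 1 - p)) (hq : V z (n - 1) ≠ T) (hp : PL J T z p c) :
    Rc J (z ∘ (rhoE n p c h).symm) ∧ V (z ∘ (rhoE n p c h).symm) (n - 1) ≠ T ∧
      PR J T (z ∘ (rhoE n p c h).symm) p c := by
  obtain ⟨hcut, hlt, hlT, hl⟩ := hp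
  obtain ⟨-, -, -, hcJ, hJ⟩ := hcut
  obtain ⟨h1, h2, h3⟩ := h
  have hv := V_rinv z p c ⟨h1, h2, h3⟩
  have hTq : V z (n - 1) < T := lt_of_le_of_ne (hT _) hq
  have ec : rinv n p c (c - 1) = n - 1 - p := by
    unfold rinv; split_ifs <;> omega
  have en : rinv n p c (n - 1) = n - 1 := by
    unfold rinv; split_ifs <;> omega
  refine ⟨?_, ?_, ⟨h1, h2, h3, hcJ, hJ⟩, ?_, ?_, ?_, ?_⟩
  · intro j hj1 hj2 hjJ
    rw [hv _ (by omega), hv _ (by omega)]
    rcases lt_trichotomy j c with hjc | hjc | hjc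
    · by_cases hj3 : j = c - 1
      · rw [hj3, ec, hlT]
        exact hT _
      · by_cases hj4 : j + 1 < p
        · have e1 : rinv n p c (j - 1) = n - 1 - p + j := by
            unfold rinv; split_ifs <;> omega
          have e2 : rinv n p c j = n - 1 - p + j + 1 := by
            unfold rinv; split_ifs <;> omega
          rw [e1, e2]
          exact (hz j hj1 hj2 hjJ).1 (by omega)
        · by_cases hj5 : j + 1 = p
          · have e1 : rinv n p c (j - 1) = n - 1 - p + j := by
              unfold rinv; split_ifs <;> omega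
            have e2 : rinv n p c j = 0 := by
              unfold rinv; split_ifs <;> omega
            rw [e1, e2]
            have g1 := (hz j hj1 hj2 hjJ).1 (by omega)
            rw [show n - 1 - p + j + 1 = n - 1 by omega] at g1
            have g2 := (hz p h1 (by omega) (hJ p le_rfl (by omega))).2.1 (by omega)
            omega
          · have e1 : rinv n p c (j - 1) = n - 1 - p + (j + 1) - n := by
              unfold rinv; split_ifs <;> omega
            have e2 : rinv n p c j = n - 1 - p + (j + 1) + 1 - n := by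
              unfold rinv; split_ifs <;> omega
            rw [e1, e2]
            exact (hz (j + 1) (by omega) (by omega) (hJ (j + 1) (by omega) (by omega))).2.2
              (by omega)
    · exfalso
      rcases hcJ with h | h
      · exact hjJ (by rw [hjc]; exact h)
      · omega
    · have e1 : rinv n p c (j - 1) = n - 1 - p + j - n := by
        unfold rinv; split_ifs <;> omega
      have e2 : rinv n p c j = n - 1 - p + j + 1 - n := by
        unfold rinv; split_ifs <;> omega
      rw [e1, e2]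
      exact (hz j hj1 hj2 hjJ).2.2 (by omega)
  · rw [hv _ (by omega), en]
    exact hq
  · rw [hv _ (by omega), ec, hlT]
  · rw [hv _ (by omega), hv _ (by omega), en]
    by_cases hpc : p = c
    · have e1 : rinv n p c (p - 1) = n - 1 - p := by
        unfold rinv; split_ifs <;> omega
      rw [e1, hlT]
      exact hTq
    · have e1 : rinv n p c (p - 1) = 0 := by
        unfold rinv; split_ifs <;> omega
      rw [e1]
      exact (hz p h1 (by omega) (hJ p le_rfl (by omega))).2.1 (by omega)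
  · intro hp2 hpJ
    rw [hv _ (by omega), hv _ (by omega), en]
    have e1 : rinv n p c (p - 2) = n - 1 - p + (p - 1) := by
      unfold rinv; split_ifs <;> omega
    rw [e1]
    have g1 := (hz (p - 1) (by omega) (by omega) hpJ).1 (by omega)
    rwa [show n - 1 - p + (p - 1) + 1 = n - 1 by omega] at g1
  · intro j hjJ hj1 hj2
    rw [hv _ (by omega)]
    have e1 : rinv n p c (j - 1) = j - 1 + n - p := by
      unfold rinv; split_ifs <;> omega
    rw [e1]
    exact hl _ (by omega) (by omega)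

/-- unique data of the first kind -/
theorem PR_unique {J : Finset ℕ} {T : ℕ} {z : Fin n → ℕ} (hz : Rc J z) {p c p' c' : ℕ}
    (h : PR J T z p c) (h' : PR J T z p' c') : p = p' ∧ c = c' := by
  obtain ⟨⟨h1, h2, h3, hcJ, hJ⟩, hc, hpq, hp2, hJT⟩ := h
  obtain ⟨⟨h1', h2', h3', hcJ', hJ'⟩, hc', hpq', hp2', hJT'⟩ := h'
  have hcc : c = c' := by
    rcases lt_trichotomy c c' with h | h | h
    · exfalso
      have hcJ1 : c ∈ J := hcJ.resolve_right (by omega)
      by_cases h4 : c < p'
      · exact hJT' c hcJ1 (by omega) h4 hc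
      · exact hJ' c (by omega) h hcJ1
    · exact h
    · exfalso
      have hcJ1 : c' ∈ J := hcJ'.resolve_right (by omega)
      by_cases h4 : c' < p
      · exact hJT c' hcJ1 (by omega) h4 hc'
      · exact hJ c' (by omega) h hcJ1
  subst hcc
  refine ⟨?_, rfl⟩
  rcases lt_trichotomy p p' with h | h | h
  · exfalso
    have g1 := hp2' (by omega) (hJ (p' - 1) (by omega) (by omega))
    have g2 := chain hz p (p' - 1) h1 (by omega) (by omega) (fun j h5 h6 => hJ j h5 (by omega))
    rw [show p' - 1 - 1 = p' - 2 by omega] at g2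
    omega
  · exact h
  · exfalso
    have g1 := hp2 (by omega) (hJ' (p - 1) (by omega) (by omega))
    have g2 := chain hz p' (p - 1) h1' (by omega) (by omega) (fun j h5 h6 => hJ' j h5 (by omega))
    rw [show p - 1 - 1 = p - 2 by omega] at g2
    omega

theorem PR_exists {J : Finset ℕ} {T : ℕ} {z : Fin n → ℕ} (hT : ∀ i, V z i ≤ T) (hz : Rc J z)
    (hq : V z (n - 1) ≠ T) (hex : ∃ i, i < n ∧ V z i = T) : ∃ p c, PR J T z p c := by
  classical
  have hTq : V z (n - 1) < T := lt_of_le_of_ne (hT _) hq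
  obtain ⟨i, hi, hiT⟩ := hex
  have hi' : i + 1 < n := by
    rcases Nat.lt_or_ge (i + 1) n with h | h
    · exact h
    · exfalso; apply hq; rw [show n - 1 = i by omega]; exact hiT
  -- first block end after `i`
  have hc0 : ∃ c, i + 1 ≤ c ∧ (c ∈ J ∨ c + 1 = n) := ⟨n - 1, by omega, Or.inr (by omega)⟩
  have hc1 : ∃ c, 1 ≤ c ∧ c + 1 ≤ n ∧ (c ∈ J ∨ c + 1 = n) ∧ V z (c - 1) = T := by
    have hs := Nat.find_spec hc0
    have hm : Nat.find hc0 ≤ n - 1 := Nat.find_min' hc0 ⟨by omega, Or.inr (by omega)⟩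
    refine ⟨Nat.find hc0, by omega, by omega, hs.2, ?_⟩
    have := chain hz (i + 1) (Nat.find hc0) (by omega) hs.1 (by omega) (fun j h1 h2 h3 =>
      Nat.find_min hc0 h2 ⟨h1, Or.inl h3⟩)
    simp only [Nat.add_sub_cancel] at this
    have h4 := hT (Nat.find hc0 - 1)
    omega
  set c := Nat.find hc1 with hc
  obtain ⟨g1, g2, g3, g4⟩ := Nat.find_spec hc1
  have g5 : ∀ m, m < c → ¬ (1 ≤ m ∧ m + 1 ≤ n ∧ (m ∈ J ∨ m + 1 = n) ∧ V z (m - 1) = T) :=
    fun m hm => Nat.find_min hc1 hm
  rw [← hc] at g1 g2 g3 g4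
  have hp1 : ∃ p, 1 ≤ p ∧ p ≤ c ∧ (∀ j, p ≤ j → j < c → j ∉ J) ∧ V z (n - 1) < V z (p - 1) :=
    ⟨c, g1, le_rfl, fun j h1 h2 => by omega, by rw [g4]; exact hTq⟩
  set p := Nat.find hp1 with hp
  obtain ⟨k1, k2, k3, k4⟩ := Nat.find_spec hp1
  have k5 : ∀ m, m < p → ¬ (1 ≤ m ∧ m ≤ c ∧ (∀ j, m ≤ j → j < c → j ∉ J) ∧
    V z (n - 1) < V z (m - 1)) := fun m hm => Nat.find_min hp1 hm
  rw [← hp] at k1 k2 k3 k4
  refine ⟨p, c, ⟨k1, k2, g2, g3, k3⟩, g4, k4, ?_, ?_⟩
  · intro h1 h2
    by_contra h3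
    apply k5 (p - 1) (by omega)
    refine ⟨by omega, by omega, ?_, ?_⟩
    · intro j h4 h5
      by_cases h6 : j = p - 1
      · rw [h6]; exact h2
      · exact k3 j (by omega) h5
    · rw [show p - 1 - 1 = p - 2 by omega]
      omega
  · intro j hjJ h1 h2 h3
    exact g5 j (by omega) ⟨h1, by omega, Or.inl hjJ, h3⟩

theorem lastT_unique {T : ℕ} {z : Fin n → ℕ} {t t' : ℕ} (h : lastT T z t) (h' : lastT T z t') :
    t = t' := by
  rcases lt_trichotomy t t' with h1 | h1 | h1
  · exact absurd h'.2.1 (h.2.2 t' h1 h'.1)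
  · exact h1
  · exact absurd h.2.1 (h'.2.2 t h1 h.1)

theorem PL_unique {J : Finset ℕ} {T : ℕ} {z : Fin n → ℕ} {p c p' c' : ℕ}
    (h : PL J T z p c) (h' : PL J T z p' c') : p = p' ∧ c = c' := by
  obtain ⟨⟨h1, h2, h3, hcJ, hJ⟩, ht⟩ := h
  obtain ⟨⟨h1', h2', h3', hcJ', hJ'⟩, ht'⟩ := h'
  have := lastT_unique ht ht'
  have hp : p = p' := by omega
  subst hp
  refine ⟨rfl, ?_⟩
  rcases lt_trichotomy c c' with h | h | h
  · exfalso
    exact hJ' c h2 h (hcJ.resolve_right (by omega))
  · exact h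
  · exfalso
    exact hJ c' h2' h (hcJ'.resolve_right (by omega))

theorem PL_exists {J : Finset ℕ} {T : ℕ} {z : Fin n → ℕ} {t : ℕ} (ht : lastT T z t)
    (hq : V z (n - 1) ≠ T) : ∃ p c, PL J T z p c ∧ t = n - 1 - p := by
  classical
  have ht1 := ht.1
  have hne : t ≠ n - 1 := fun h => hq (h ▸ ht.2.1)
  have hc0 : ∃ c, n - 1 - t ≤ c ∧ (c ∈ J ∨ c + 1 = n) := ⟨n - 1, by omega, Or.inr (by omega)⟩
  have hs := Nat.find_spec hc0
  have hm : Nat.find hc0 ≤ n - 1 := Nat.find_min' hc0 ⟨by omega, Or.inr (by omega)⟩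
  refine ⟨n - 1 - t, Nat.find hc0, ⟨⟨by omega, hs.1, by omega, hs.2, ?_⟩, ?_⟩, by omega⟩
  · intro j h1 h2 h3
    exact Nat.find_min hc0 h2 ⟨h1, Or.inl h3⟩
  · rw [show n - 1 - (n - 1 - t) = t by omega]
    exact ht

theorem card_unique {α β : Type*} [DecidableEq β] (S : Finset α) (X : Finset β)
    (P : α → β → Prop) [∀ a b, Decidable (P a b)]
    (h : ∀ a ∈ S, ∃ b ∈ X, P a b ∧ ∀ b' ∈ X, P a b' → b' = b) :
    #S = ∑ b ∈ X, #{a ∈ S | P a b} := by
  have h1 : ∑ b ∈ X, #{a ∈ S | P a b} = ∑ a ∈ S, #{b ∈ X | P a b} := by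
    simp only [card_filter]
    exact sum_comm
  rw [h1, card_eq_sum_ones]
  refine sum_congr rfl fun a ha => ?_
  obtain ⟨b, hb, hP, hu⟩ := h a ha
  symm
  rw [card_eq_one]
  refine ⟨b, ?_⟩
  ext b'
  rw [mem_filter, mem_singleton]
  constructor
  · rintro ⟨h1, h2⟩; exact hu b' h1 h2
  · rintro rfl; exact ⟨hb, hP⟩

open Classical in
/-- The two families of words have the same size. -/
theorem words_card (r : Fin n → ℕ) (J : Finset ℕ) (T : ℕ) (hT : ∀ i, r i ≤ T)
    (hex : ∃ i, r i = T) :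
    #{z ∈ Wd r | Rc J z} = #{z ∈ Wd r | ∃ t, lastT T z t ∧ Lc J z t} := by
  have hn : 0 < n := by
    obtain ⟨i, -⟩ := hex
    have := i.2
    omega
  have hTz : ∀ z ∈ Wd r, ∀ i, V z i ≤ T := by
    intro z hz i
    rw [Wd, mem_image] at hz
    obtain ⟨u, -, rfl⟩ := hz
    unfold V
    split_ifs
    · exact hT _
    · exact Nat.zero_le _
  have hexz : ∀ z ∈ Wd r, ∃ i, i < n ∧ V z i = T := by
    intro z hz
    rw [Wd, mem_image] at hz
    obtain ⟨u, -, rfl⟩ := hz
    obtain ⟨i, hi⟩ := hex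
    refine ⟨u.symm i, (u.symm i).2, ?_⟩
    rw [V_eq _ _ (u.symm i).2]
    simp [hi]
  have split : ∀ P : (Fin n → ℕ) → Prop, #{z ∈ Wd r | P z} =
      #{z ∈ Wd r | P z ∧ V z (n - 1) = T} + #{z ∈ Wd r | P z ∧ V z (n - 1) ≠ T} := by
    intro P
    rw [← filter_filter, ← filter_filter]
    exact (card_filter_add_card_filter_not _).symm
  rw [split, split]
  congr 1
  · congr 1
    apply filter_congr
    intro z hz
    constructor
    · rintro ⟨h1, h2⟩
      refine ⟨⟨n - 1, ⟨by omega, h2, fun i h3 h4 => by omega⟩, ?_⟩, h2⟩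
      intro j hj1 hj2 hjJ
      refine ⟨fun h => by omega, fun h => by omega, fun _ => ?_⟩
      rw [show n - 1 + j - n = j - 1 by omega, show n - 1 + j + 1 - n = j by omega]
      exact h1 j hj1 hj2 hjJ
    · rintro ⟨⟨t, ht, h1⟩, h2⟩
      refine ⟨?_, h2⟩
      have h3 : t = n - 1 := lastT_unique ht ⟨by omega, h2, fun i h3 h4 => by omega⟩
      subst h3
      intro j hj1 hj2 hjJ
      have := (h1 j hj1 hj2 hjJ).2.2 (by omega)
      rwa [show n - 1 + j - n = j - 1 by omega, show n - 1 + j + 1 - n = j by omega] at this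
  · rw [card_unique {z ∈ Wd r | Rc J z ∧ V z (n - 1) ≠ T} (range n ×ˢ range n)
      (fun z x => PR J T z x.1 x.2), card_unique
      {z ∈ Wd r | (∃ t, lastT T z t ∧ Lc J z t) ∧ V z (n - 1) ≠ T} (range n ×ˢ range n)
      (fun z x => PL J T z x.1 x.2)]
    · refine sum_congr rfl fun x _ => ?_
      obtain ⟨p, c⟩ := x
      by_cases hcut : 1 ≤ p ∧ p ≤ c ∧ c + 1 ≤ n
      · refine card_nbij' (fun w => w ∘ rhoE n p c hcut) (fun z => z ∘ (rhoE n p c hcut).symm)
          ?_ ?_ ?_ ?_
        · intro w hw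
          simp only [coe_filter, mem_filter, Set.mem_ofPred_eq] at hw ⊢
          obtain ⟨⟨h1, h2, h3⟩, h4⟩ := hw
          obtain ⟨g1, g2, g3⟩ := fwd (hTz w h1) hcut h2 h3 h4
          exact ⟨⟨Wd_comp h1 _, ⟨_, g2, g1⟩, g3⟩, h4.1, g2⟩
        · intro z hz
          simp only [coe_filter, mem_filter, Set.mem_ofPred_eq] at hz ⊢
          obtain ⟨⟨h1, ⟨t, ht, h2⟩, h3⟩, h4⟩ := hz
          have h5 := lastT_unique ht h4.2
          subst h5
          obtain ⟨g1, g2, g3⟩ := bwd (hTz z h1) hcut h2 h3 h4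
          exact ⟨⟨Wd_comp h1 _, g1, g2⟩, g3⟩
        · intro w _
          funext i
          simp
        · intro w _
          funext i
          simp
      · rw [card_eq_zero.2, card_eq_zero.2]
        · rw [filter_eq_empty_iff]
          intro z _ h
          exact hcut ⟨h.1.1, h.1.2.1, h.1.2.2.1⟩
        · rw [filter_eq_empty_iff]
          intro z _ h
          exact hcut ⟨h.1.1, h.1.2.1, h.1.2.2.1⟩
    · intro z hz
      simp only [mem_filter] at hz
      obtain ⟨h1, ⟨t, ht, h2⟩, h3⟩ := hz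
      obtain ⟨p, c, h4, -⟩ := PL_exists (J := J) ht h3
      refine ⟨(p, c), ?_, h4, ?_⟩
      · rw [mem_product, mem_range, mem_range]
        obtain ⟨k1, k2, k3, -⟩ := h4.1
        exact ⟨by simp only; omega, by simp only; omega⟩
      · rintro ⟨p', c'⟩ _ h5
        obtain ⟨g1, g2⟩ := PL_unique h4 h5
        rw [g1, g2]
    · intro z hz
      simp only [mem_filter] at hz
      obtain ⟨h1, h2, h3⟩ := hz
      obtain ⟨p, c, h4⟩ := PR_exists (hTz z h1) h2 h3 (hexz z h1)
      refine ⟨(p, c), ?_, h4, ?_⟩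
      · rw [mem_product, mem_range, mem_range]
        obtain ⟨k1, k2, k3, -⟩ := h4.1
        exact ⟨by simp only; omega, by simp only; omega⟩
      · rintro ⟨p', c'⟩ _ h5
        obtain ⟨g1, g2⟩ := PR_unique h2 h4 h5
        rw [g1, g2]

end V11134.VR
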