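import Mathlib
import Pool.Agent.V11134.VR.Pos
import Pool.Agent.V11134.VR.Words

set_option autoImplicit false

/-!
# Vertical rotations
-/

open Finset

namespace V11134.VR

open V11176 V11176.Content V11176.Gessel Pool.Agent.H634R3.KF

variable {n m : ℕ}

theorem cmp (r : Fin n → ℕ) (hr : Monotone r) (π : Equiv.Perm (Fin n)) (h : IncOn r π)
    (x y : Fin n) (hxy : x < y) : π.symm x < π.symm y ↔ r (π.symm x) ≤ r (π.symm y) := by
  constructor
  · intro h1; exact hr h1.le
  · intro h1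
    by_contra hc
    have hne : π.symm x ≠ π.symm y := fun h => hxy.ne (π.symm.injective h)
    have hlt := lt_of_le_of_ne (not_lt.1 hc) hne.symm
    have h2 := hr hlt.le
    have h3 := h _ _ hlt (le_antisymm h2 h1)
    simp only [Equiv.apply_symm_apply] at h3
    exact lt_asymm h3 hxy

theorem word_count (r : Fin n → ℕ) (hr : Monotone r) (P : Equiv.Perm (Fin n) → Prop)
    (P' : (Fin n → ℕ) → Prop) [DecidablePred P] [DecidablePred P']
    (h : ∀ π, IncOn r π → (P π ↔ P' (r ∘ π.symm))) :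
    #{π : Equiv.Perm (Fin n) | des π ⊆ asc r ∧ P π} = #{z ∈ Wd r | P' z} := by
  refine card_bij (fun π _ => r ∘ π.symm) ?_ ?_ ?_
  · intro π hπ
    simp only [mem_filter, mem_univ, true_and] at hπ ⊢
    have h1 := (des_iff π r hr).1 hπ.1
    refine ⟨?_, (h π h1).1 hπ.2⟩
    rw [Wd, mem_image]
    exact ⟨π.symm, mem_univ _, rfl⟩
  · intro π hπ π' hπ' he
    simp only [mem_filter, mem_univ, true_and] at hπ hπ'
    have h1 := (des_iff π r hr).1 hπ.1
    have h1' := (des_iff π' r hr).1 hπ'.1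
    have e1 := stdE_unique r (r ∘ π.symm) π (fun i => by simp) h1
    have e2 := stdE_unique r (r ∘ π.symm) π' (fun i => by rw [he]; simp) h1'
    rw [e1, ← e2]
  · intro z hz
    simp only [mem_filter] at hz
    obtain ⟨hz1, hz2⟩ := hz
    rw [Wd, mem_image] at hz1
    obtain ⟨u, -, rfl⟩ := hz1
    obtain ⟨g1, g2⟩ := stdE_spec r (r ∘ u) u.symm (fun i => by simp)
    set π := stdE r (r ∘ u) with hπ
    have g3 : r ∘ π.symm = r ∘ u := by
      funext x
      have := g1 (π.symm x)
      simp only [Function.comp, Equiv.apply_symm_apply] at this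
      exact this.symm
    refine ⟨π, ?_, g3⟩
    simp only [mem_filter, mem_univ, true_and]
    exact ⟨(des_iff π r hr).2 g2, (h π g2).2 (by rw [g3]; exact hz2)⟩

/-- cyclic index -/
def at' (m x : ℕ) : Fin (m + 2) := ⟨x % (m + 2), Nat.mod_lt _ (by omega)⟩

theorem at_lt (x : ℕ) (h : x < m + 2) : at' m x = ⟨x, h⟩ := Fin.ext (Nat.mod_eq_of_lt h)

theorem at_add (x : ℕ) : at' m (x + (m + 2)) = at' m x := Fin.ext (Nat.add_mod_right x _)

theorem at_ge (x : ℕ) (h : m + 2 ≤ x) (h2 : x - (m + 2) < m + 2) :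
    at' m x = ⟨x - (m + 2), h2⟩ := by
  have h3 := at_add (m := m) (x - (m + 2))
  rw [Nat.sub_add_cancel h] at h3
  rw [h3, at_lt _ h2]

/-- position of the last letter's value -/
def tt (σ : Equiv.Perm (Fin (m + 2))) : ℕ := (σ (Fin.last (m + 1)) : ℕ)

/-- the descents of the inverse, read cyclically after the value of the last letter -/
def dd (σ : Equiv.Perm (Fin (m + 2))) : Finset ℕ :=
  (Icc 1 m).filter (fun j => σ.symm (at' m (tt σ + j + 1)) < σ.symm (at' m (tt σ + j)))

theorem tt_lt (σ : Equiv.Perm (Fin (m + 2))) : tt σ < m + 2 := (σ (Fin.last (m + 1))).2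

theorem symm_tt (σ : Equiv.Perm (Fin (m + 2))) : σ.symm (at' m (tt σ)) = Fin.last (m + 1) := by
  rw [at_lt _ (tt_lt σ)]
  have : (⟨tt σ, tt_lt σ⟩ : Fin (m + 2)) = σ (Fin.last (m + 1)) := rfl
  rw [this, Equiv.symm_apply_apply]

theorem R_iff (r : Fin (m + 2) → ℕ) (hr : Monotone r) (J : Finset ℕ)
    (π : Equiv.Perm (Fin (m + 2))) (h : IncOn r π) :
    des π.symm ∩ Icc 1 m ⊆ J ↔ Rc J (r ∘ π.symm) := by
  have key : ∀ j, (h1 : 1 ≤ j) → (h2 : j + 2 ≤ m + 2) →
      (j ∈ des π.symm ↔ ¬ V (r ∘ π.symm) (j - 1) ≤ V (r ∘ π.symm) j) := by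
    intro j h1 h2
    rw [mem_des π.symm j h1 (by omega), V_eq _ _ (show j - 1 < m + 2 by omega),
      V_eq _ _ (show j < m + 2 by omega)]
    have h3 := cmp r hr π h ⟨j - 1, by omega⟩ ⟨j, by omega⟩ (by rw [Fin.lt_def]; simp only; omega)
    simp only [Function.comp]
    rw [← h3]
    constructor
    · intro h4; exact not_lt.2 h4.le
    · intro h4
      refine lt_of_le_of_ne (not_lt.1 h4) (fun h5 => ?_)
      have := π.symm.injective h5
      rw [Fin.mk.injEq] at this
      omega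
  constructor
  · intro hs j h1 h2 hj
    by_contra hc
    exact hj (hs (mem_inter.2 ⟨(key j h1 h2).2 hc, mem_Icc.2 ⟨h1, by omega⟩⟩))
  · intro hs j hj
    rw [mem_inter, mem_Icc] at hj
    by_contra hc
    exact (key j hj.2.1 (by omega)).1 hj.1 (hs j hj.2.1 (by omega) hc)

theorem L_iff (r : Fin (m + 2) → ℕ) (hr : Monotone r) (J : Finset ℕ)
    (σ : Equiv.Perm (Fin (m + 2))) (h : IncOn r σ) :
    dd σ ⊆ J ↔ ∃ t, lastT (r (Fin.last (m + 1))) (r ∘ σ.symm) t ∧ Lc J (r ∘ σ.symm) t := by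
  set z := r ∘ σ.symm with hz
  have hV : ∀ x (hx : x < m + 2), V z x = r (σ.symm ⟨x, hx⟩) := fun x hx => V_eq z x hx
  have ht := tt_lt σ
  have hst := symm_tt σ
  rw [at_lt _ ht] at hst
  have hlast : lastT (r (Fin.last (m + 1))) z (tt σ) := by
    refine ⟨ht, ?_, ?_⟩
    · rw [hV _ ht, hst]
    · intro i hi hi2 he
      rw [hV _ hi2] at he
      have h3 := cmp r hr σ h ⟨tt σ, ht⟩ ⟨i, hi2⟩ (by rw [Fin.lt_def]; exact hi)
      rw [hst, he] at h3
      exact absurd (h3.2 le_rfl) (not_lt.2 (Fin.le_last _))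
  have key : ∀ j, (h1 : 1 ≤ j) → (h2 : j + 2 ≤ m + 2) →
      (j ∉ dd σ ↔ ((tt σ + j + 1 < m + 2 → V z (tt σ + j) ≤ V z (tt σ + j + 1)) ∧
        (tt σ + j + 1 = m + 2 → V z (m + 2 - 1) < V z 0) ∧
        (m + 2 ≤ tt σ + j → V z (tt σ + j - (m + 2)) ≤ V z (tt σ + j + 1 - (m + 2))))) := by
    intro j h1 h2
    have hmem : j ∈ dd σ ↔ σ.symm (at' m (tt σ + j + 1)) < σ.symm (at' m (tt σ + j)) := by
      rw [dd, mem_filter, mem_Icc]
      constructor
      · intro h; exact h.2
      · intro h; exact ⟨⟨h1, by omega⟩, h⟩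
    rw [hmem, not_lt]
    have hle : ∀ x y : Fin (m + 2), x ≠ y → (σ.symm x ≤ σ.symm y ↔ σ.symm x < σ.symm y) := by
      intro x y hxy
      constructor
      · intro h4; exact lt_of_le_of_ne h4 (fun h5 => hxy (σ.symm.injective h5))
      · intro h4; exact h4.le
    rcases lt_trichotomy (tt σ + j + 1) (m + 2) with h3 | h3 | h3
    · rw [at_lt _ (show tt σ + j < m + 2 by omega), at_lt _ h3, hle _ _ (by
        intro h4; rw [Fin.mk.injEq] at h4; omega),
        cmp r hr σ h _ _ (by rw [Fin.lt_def]; simp only; omega), ← hV _ _, ← hV _ _]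
      constructor
      · intro h4; exact ⟨fun _ => h4, fun h5 => by omega, fun h5 => by omega⟩
      · intro h4; exact h4.1 h3
    · have e0 : at' m (tt σ + j + 1) = ⟨0, by omega⟩ := by
        rw [at_ge _ (by omega) (by omega)]
        apply Fin.ext
        simp only
        omega
      have e1 : at' m (tt σ + j) = ⟨m + 2 - 1, by omega⟩ := by
        rw [at_lt _ (show tt σ + j < m + 2 by omega)]
        apply Fin.ext
        simp only
        omega
      have h4 := cmp r hr σ h ⟨0, by omega⟩ ⟨m + 2 - 1, by omega⟩ (by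
        rw [Fin.lt_def]; simp only; omega)
      rw [e0, e1, ← not_lt, h4, ← hV _ _, ← hV _ _, not_le]
      constructor
      · intro h4; exact ⟨fun h5 => by omega, fun _ => h4, fun h5 => by omega⟩
      · intro h4; exact h4.2.1 h3
    · rw [at_ge _ (show m + 2 ≤ tt σ + j by omega) (by omega),
        at_ge _ (show m + 2 ≤ tt σ + j + 1 by omega) (by omega), hle _ _ (by
        intro h4; rw [Fin.mk.injEq] at h4; omega),
        cmp r hr σ h _ _ (by rw [Fin.lt_def]; simp only; omega), ← hV _ _, ← hV _ _]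
      constructor
      · intro h4; exact ⟨fun h5 => by omega, fun h5 => by omega, fun _ => h4⟩
      · intro h4; exact h4.2.2 (by omega)
  constructor
  · intro hs
    refine ⟨tt σ, hlast, fun j h1 h2 hj => (key j h1 h2).1 (fun h3 => hj (hs h3))⟩
  · rintro ⟨t, ht1, ht2⟩
    have := lastT_unique ht1 hlast
    subst this
    intro j hj
    by_contra hc
    have hj' : j ∈ Icc 1 m := (mem_filter.1 hj).1
    rw [mem_Icc] at hj'
    exact (key j hj'.1 (by omega)).2 (ht2 j hj'.1 (by omega) hc) hj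

open Classical in
theorem LR_count (r : Fin (m + 2) → ℕ) (hr : Monotone r) (J : Finset ℕ) :
    #{σ : Equiv.Perm (Fin (m + 2)) | des σ ⊆ asc r ∧ dd σ ⊆ J} =
      #{π : Equiv.Perm (Fin (m + 2)) | des π ⊆ asc r ∧ des π.symm ∩ Icc 1 m ⊆ J} := by
  rw [word_count r hr (fun σ => dd σ ⊆ J)
    (fun z => ∃ t, lastT (r (Fin.last (m + 1))) z t ∧ Lc J z t) (L_iff r hr J),
    word_count r hr (fun π => des π.symm ∩ Icc 1 m ⊆ J) (fun z => Rc J z) (R_iff r hr J),
    words_card r J (r (Fin.last (m + 1))) (fun i => hr (Fin.le_last i)) ⟨_, rfl⟩]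

open Classical in
theorem LR_family (r : Fin (m + 2) → ℕ) (hr : Monotone r) (P : Finset ℕ → Prop) :
    #{σ : Equiv.Perm (Fin (m + 2)) | des σ ⊆ asc r ∧ P (dd σ)} =
      #{π : Equiv.Perm (Fin (m + 2)) | des π ⊆ asc r ∧ P (des π.symm ∩ Icc 1 m)} := by
  have hc : ∀ J ⊆ Icc 1 m, #{σ : Equiv.Perm (Fin (m + 2)) | des σ ⊆ asc r ∧ dd σ = J} =
      #{π : Equiv.Perm (Fin (m + 2)) | des π ⊆ asc r ∧ des π.symm ∩ Icc 1 m = J} := by
    apply mob
    intro J _
    have h1 := sum_fib (univ.filter (fun π : Equiv.Perm (Fin (m + 2)) => des π ⊆ asc r)) dd J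
    have h2 := sum_fib (univ.filter (fun π : Equiv.Perm (Fin (m + 2)) => des π ⊆ asc r))
      (fun π => des π.symm ∩ Icc 1 m) J
    simp only [filter_filter] at h1 h2
    rw [h1, h2]
    exact LR_count r hr J
  have key : ∀ (f : Equiv.Perm (Fin (m + 2)) → Finset ℕ) (_ : ∀ x, f x ⊆ Icc 1 m),
      #{σ : Equiv.Perm (Fin (m + 2)) | des σ ⊆ asc r ∧ P (f σ)} =
      ∑ X ∈ (Icc 1 m).powerset with P X,
        #{σ : Equiv.Perm (Fin (m + 2)) | des σ ⊆ asc r ∧ f σ = X} := by
    intro f hf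
    rw [card_eq_sum_card_fiberwise (f := f)
      (t := (Icc 1 m).powerset.filter P) (fun x hx => by
        simp only [coe_filter, mem_univ, true_and, Set.mem_ofPred_eq] at hx
        simp only [coe_filter, mem_powerset, Set.mem_ofPred_eq]
        exact ⟨hf x, hx.2⟩)]
    refine sum_congr rfl fun X hX => ?_
    rw [filter_filter]
    congr 1
    apply filter_congr
    intro x _
    rw [mem_filter] at hX
    constructor
    · intro h; exact ⟨h.1.1, h.2⟩
    · intro h; exact ⟨⟨h.1, by rw [h.2]; exact hX.2⟩, h.2⟩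
  rw [key dd (fun x => filter_subset _ _), key (fun π => des π.symm ∩ Icc 1 m)
    (fun x => inter_subset_right)]
  refine sum_congr rfl fun X hX => ?_
  exact hc X (mem_powerset.1 (mem_filter.1 hX).1)

/-- Every family of permutations described by `dd` is Schur-positive. -/
theorem positive_dd (S : Finset (Equiv.Perm (Fin (m + 2))))
    (hS : ∀ σ σ', dd σ = dd σ' → σ ∈ S → σ' ∈ S) : SchurPositive (m + 2) (Q S) := by
  classical
  let P : Finset ℕ → Prop := fun X => ∃ σ ∈ S, dd σ = X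
  have hP : ∀ σ, σ ∈ S ↔ P (dd σ) := by
    intro σ
    constructor
    · intro h; exact ⟨σ, h, rfl⟩
    · rintro ⟨σ', h1, h2⟩; exact hS σ' σ h2 h1
  apply schurPositive_of S (fun μ => #{q ∈ stdSet μ (m + 2) | P (desQ q ∩ Icc 1 m)})
  intro r e hr he
  have h1 := family_count r hr e he (fun X => P (X ∩ Icc 1 m))
  have h2 := LR_family r hr P
  calc #{π ∈ S | des π ⊆ asc r} = #{σ : Equiv.Perm (Fin (m + 2)) | des σ ⊆ asc r ∧ P (dd σ)} := by
        congr 1
        ext σ
        simp only [mem_filter, mem_univ, true_and]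
        rw [hP σ]
        exact and_comm
    _ = #{π : Equiv.Perm (Fin (m + 2)) | des π ⊆ asc r ∧ P (des π.symm ∩ Icc 1 m)} := by convert h2
    _ = _ := by convert h1

/-- cyclic signs -/
def sg (σ : Equiv.Perm (Fin (m + 2))) (x : ℕ) : Prop := σ.symm (at' m x) < σ.symm (at' m (x + 1))

theorem at_inj (x y : ℕ) (h : at' m x = at' m y) : x % (m + 2) = y % (m + 2) := congrArg Fin.val h

theorem sg_eq (σ : Equiv.Perm (Fin (m + 2))) (i : ℕ) (hi : i < m + 2) :
    sg σ (tt σ + i) ↔ (i = m + 1 ∨ (1 ≤ i ∧ i ≤ m ∧ i ∉ dd σ)) := by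
  unfold sg
  have h0 := symm_tt σ
  rcases Nat.eq_zero_or_pos i with h1 | h1
  · subst h1
    show σ.symm (at' m (tt σ)) < _ ↔ _
    rw [h0]
    constructor
    · intro h; exact absurd h (not_lt.2 (Fin.le_last _))
    · rintro (h | h) <;> omega
  · by_cases h2 : i = m + 1
    · subst h2
      have e : tt σ + (m + 1) + 1 = tt σ + (m + 2) := by omega
      rw [e, at_add, h0]
      constructor
      · intro _; left; rfl
      · intro _
        refine lt_of_le_of_ne (Fin.le_last _) ?_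
        intro h
        rw [← h0] at h
        have := at_inj _ _ (σ.symm.injective h)
        have h3 := tt_lt σ
        rw [Nat.mod_eq_of_lt h3] at this
        rcases Nat.eq_zero_or_pos (tt σ) with h4 | h4
        · rw [h4, Nat.zero_add, Nat.mod_eq_of_lt (by omega)] at this; omega
        · rw [Nat.mod_eq_sub_mod (by omega), Nat.mod_eq_of_lt (by omega)] at this; omega
    · have hm : i ∈ dd σ ↔ σ.symm (at' m (tt σ + i + 1)) < σ.symm (at' m (tt σ + i)) := by
        rw [dd, mem_filter, mem_Icc]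
        constructor
        · intro h; exact h.2
        · intro h; exact ⟨⟨h1, by omega⟩, h⟩
      have hne : σ.symm (at' m (tt σ + i)) ≠ σ.symm (at' m (tt σ + i + 1)) := by
        intro h
        have := at_inj _ _ (σ.symm.injective h)
        have h3 := tt_lt σ
        rcases lt_trichotomy (tt σ + i + 1) (m + 2) with h4 | h4 | h4
        · rw [Nat.mod_eq_of_lt (by omega), Nat.mod_eq_of_lt (by omega)] at this; omega
        · rw [h4, Nat.mod_self, Nat.mod_eq_of_lt (by omega)] at this; omega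
        · rw [Nat.mod_eq_sub_mod (by omega), Nat.mod_eq_of_lt (by omega),
            Nat.mod_eq_sub_mod (by omega), Nat.mod_eq_of_lt (by omega)] at this; omega
      rw [hm]
      constructor
      · intro h; right; exact ⟨h1, by omega, lt_asymm h⟩
      · rintro (h | h)
        · omega
        · exact lt_of_le_of_ne (not_lt.1 h.2.2) hne

theorem sg_add (σ : Equiv.Perm (Fin (m + 2))) (x k : ℕ) : sg σ (x + k * (m + 2)) ↔ sg σ x := by
  unfold sg at'
  have e1 : (x + k * (m + 2)) % (m + 2) = x % (m + 2) := Nat.add_mul_mod_self_right _ _ _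
  have e2 : (x + k * (m + 2) + 1) % (m + 2) = (x + 1) % (m + 2) := by
    rw [show x + k * (m + 2) + 1 = x + 1 + k * (m + 2) by ring]
    exact Nat.add_mul_mod_self_right _ _ _
  simp only [e1, e2]

theorem sg_same (σ σ' : Equiv.Perm (Fin (m + 2))) (h : dd σ = dd σ') (i : ℕ) :
    sg σ (tt σ + i) ↔ sg σ' (tt σ' + i) := by
  have e : i = i % (m + 2) + i / (m + 2) * (m + 2) := by
    have := Nat.mod_add_div i (m + 2)
    rw [Nat.mul_comm] at this
    omega
  rw [e, ← Nat.add_assoc, ← Nat.add_assoc, sg_add, sg_add,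
    sg_eq σ _ (Nat.mod_lt _ (by omega)), sg_eq σ' _ (Nat.mod_lt _ (by omega)), h]

theorem rot_pow (k x : ℕ) : (finRotate (m + 2) ^ k) (at' m x) = at' m (x + k) := by
  induction k generalizing x with
  | zero => simp
  | succ k ih =>
    rw [pow_succ, Equiv.Perm.mul_apply]
    have : finRotate (m + 2) (at' m x) = at' m (x + 1) := by
      rw [finRotate_apply]
      apply Fin.ext
      rw [Fin.val_add]
      simp only [at']
      rw [Fin.val_one, Nat.mod_add_mod]
    rw [this, ih]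
    congr 1
    omega

theorem grid_same {k : ℕ} (v : Fin k → Bool) (π π' : Equiv.Perm (Fin (m + 2)))
    (h : ∀ x, sg π x ↔ sg π' x) (hπ : π ∈ gridClass v (m + 2)) : π' ∈ gridClass v (m + 2) := by
  obtain ⟨b, hb, hc⟩ := hπ
  refine ⟨b, hb, ?_⟩
  have step : ∀ x (hx : x + 1 < m + 2), b ⟨x, by omega⟩ = b ⟨x + 1, hx⟩ →
      if v (b ⟨x, by omega⟩) = true then π'.symm ⟨x, by omega⟩ < π'.symm ⟨x + 1, hx⟩
        else π'.symm ⟨x + 1, hx⟩ < π'.symm ⟨x, by omega⟩ := by
    intro x hx hbx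
    have h1 := hc ⟨x, by omega⟩ ⟨x + 1, hx⟩ (by rw [Fin.lt_def]; simp) hbx
    have h2 := h x
    unfold sg at h2
    rw [at_lt _ hx, at_lt _ (show x < m + 2 by omega)] at h2
    split_ifs at h1 ⊢ with h3
    · exact h2.1 h1
    · have h4 : ¬ π'.symm ⟨x, by omega⟩ < π'.symm ⟨x + 1, hx⟩ := by
        rw [← h2]; exact lt_asymm h1
      refine lt_of_le_of_ne (not_lt.1 h4) ?_
      intro h5
      have := π'.symm.injective h5
      rw [Fin.mk.injEq] at this
      omega
  have key : ∀ d x (hx : x + d + 1 < m + 2), b ⟨x, by omega⟩ = b ⟨x + d + 1, hx⟩ →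
      if v (b ⟨x, by omega⟩) = true then π'.symm ⟨x, by omega⟩ < π'.symm ⟨x + d + 1, hx⟩
        else π'.symm ⟨x + d + 1, hx⟩ < π'.symm ⟨x, by omega⟩ := by
    intro d
    induction d with
    | zero => intro x hx hbx; exact step x hx hbx
    | succ d ih =>
      intro x hx hbx
      have hx' : x + d + 1 < m + 2 := by omega
      have e1 : b ⟨x, by omega⟩ ≤ b ⟨x + d + 1, hx'⟩ := hb (by rw [Fin.le_def]; simp only; omega)
      have e2 : b ⟨x + d + 1, hx'⟩ ≤ b ⟨x + (d + 1) + 1, hx⟩ :=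
        hb (by rw [Fin.le_def]; simp only; omega)
      have e3 : b ⟨x, by omega⟩ = b ⟨x + d + 1, hx'⟩ := by
        apply le_antisymm e1
        rw [hbx]; exact e2
      have h1 := ih x hx' e3
      have h2 := step (x + d + 1) hx (e3.symm.trans hbx)
      rw [← e3] at h2
      split_ifs at h1 h2 ⊢ with h3
      · exact lt_trans h1 h2
      · exact lt_trans h2 h1
  intro x y hxy hbxy
  have hy : (x : ℕ) + (y - x - 1) + 1 < m + 2 := by
    have := y.2
    rw [Fin.lt_def] at hxy
    omega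
  have ey : y = ⟨(x : ℕ) + (y - x - 1) + 1, hy⟩ := by
    apply Fin.ext
    rw [Fin.lt_def] at hxy
    simp only
    omega
  have := key (y - x - 1) x hy (by rw [← ey]; exact hbxy)
  rw [← ey] at this
  exact this

theorem rot_dd {k : ℕ} (v : Fin k → Bool) (σ σ' : Equiv.Perm (Fin (m + 2))) (h : dd σ = dd σ')
    (hσ : σ ∈ rotations (gridClass v (m + 2))) : σ' ∈ rotations (gridClass v (m + 2)) := by
  obtain ⟨j, π, hπ, rfl⟩ := hσ
  set σ := finRotate (m + 2) ^ j * π with hσ
  have ht := tt_lt σ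
  set K := j + (m + 2) - tt σ + tt σ' with hK
  refine ⟨K, (finRotate (m + 2) ^ K)⁻¹ * σ', ?_, by rw [mul_inv_cancel_left]⟩
  apply grid_same v π _ _ hπ
  intro x
  have e1 : ∀ y, π.symm (at' m y) = σ.symm (at' m (y + j)) := by
    intro y
    rw [← rot_pow j y, hσ]
    rw [Equiv.eq_symm_apply]
    simp
  have e2 : ∀ y, ((finRotate (m + 2) ^ K)⁻¹ * σ').symm (at' m y) = σ'.symm (at' m (y + K)) := by
    intro y
    rw [← rot_pow K y, Equiv.symm_apply_eq]
    simp
  unfold sg
  rw [e1, e1, e2, e2]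
  have e3 := sg_same σ σ' h (x + j + (m + 2) - tt σ)
  have e4 : tt σ + (x + j + (m + 2) - tt σ) = x + j + 1 * (m + 2) := by omega
  have e5 : tt σ' + (x + j + (m + 2) - tt σ) = x + K := by omega
  rw [e4, sg_add, e5] at e3
  unfold sg at e3
  rw [show x + 1 + j = x + j + 1 by omega, show x + 1 + K = x + K + 1 by omega]
  exact e3

end V11134.VR
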