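import Mathlib
import Pool.Agent.V11134.VR.Rot

set_option autoImplicit false

/-!
# Symmetry of the quasisymmetric functions
-/

open Finset

namespace V11134.VR

open V11176 V11176.Content V11176.Gessel Pool.Agent.H634R3.KF

variable {n m : ℕ}

/-- Invariance under all permutations of the variables. -/
def IsSymmetric (f : MvPowerSeries ℕ ℤ) : Prop :=
  ∀ (τ : Equiv.Perm ℕ) (e : ℕ →₀ ℕ),
    MvPowerSeries.coeff (e.mapDomain τ) f = MvPowerSeries.coeff e f

theorem mx_perm {N : ℕ} {α β β' : ℕ → ℕ} (τ : Equiv.Perm ℕ) (hb : ∀ y, N ≤ y → β y = 0)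
    (hb' : ∀ y, N ≤ y → β' y = 0) (h : ∀ y, β' y = β (τ.symm y)) {M : ℕ → ℕ → ℕ}
    (hM : M ∈ Mx N α β) : (fun i y => M i (τ.symm y)) ∈ Mx N α β' := by
  have hcol : ∀ y, ∑ i ∈ range N, M i y = β y := by
    intro y
    rcases Nat.lt_or_ge y N with hy | hy
    · exact hM.2.2 y hy
    · rw [hb y hy]
      exact sum_eq_zero fun i _ => hM.1 i y (Or.inr hy)
  have hz : ∀ i y, N ≤ y → M i (τ.symm y) = 0 := by
    intro i y hy
    rcases Nat.lt_or_ge i N with hi | hi
    · have h1 := hcol (τ.symm y)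
      rw [← h, hb' y hy, sum_eq_zero_iff] at h1
      exact h1 i (mem_range.2 hi)
    · exact hM.1 i _ (Or.inl hi)
  refine ⟨?_, ?_, ?_⟩
  · intro i y hiy
    rcases hiy with h1 | h1
    · exact hM.1 i _ (Or.inl h1)
    · exact hz i y h1
  · intro i hi
    have e1 : ∑ᶠ y, M i (τ.symm y) = ∑ᶠ y, M i y := finsum_comp_equiv τ.symm
    rw [finsum_eq_sum_of_support_subset (s := range N), finsum_eq_sum_of_support_subset
      (s := range N)] at e1
    · rw [e1]
      exact hM.2.1 i hi
    · intro y hy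
      rw [Function.mem_support] at hy
      rw [mem_coe, mem_range]
      by_contra hc
      exact hy (hM.1 i y (Or.inr (not_lt.1 hc)))
    · intro y hy
      rw [Function.mem_support] at hy
      rw [mem_coe, mem_range]
      by_contra hc
      exact hy (hz i y (not_lt.1 hc))
  · intro y hy
    rw [h]
    exact hcol _

theorem mx_card {N : ℕ} {α β β' : ℕ → ℕ} (τ : Equiv.Perm ℕ) (hb : ∀ y, N ≤ y → β y = 0)
    (hb' : ∀ y, N ≤ y → β' y = 0) (h : ∀ y, β' y = β (τ.symm y)) :
    Nat.card (Mx N α β') = Nat.card (Mx N α β) := by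
  have h' : ∀ y, β y = β' (τ.symm.symm y) := by intro y; rw [h]; simp
  refine Nat.card_congr ⟨fun M => ⟨fun i y => M.1 i (τ.symm.symm y), mx_perm τ.symm hb' hb h' M.2⟩,
    fun M => ⟨fun i y => M.1 i (τ.symm y), mx_perm τ hb hb' h M.2⟩, ?_, ?_⟩
  · intro M
    apply Subtype.ext
    funext i y
    simp
  · intro M
    apply Subtype.ext
    funext i y
    simp

theorem DD_symm (r r' s : Fin n → ℕ) (hr : Monotone r) (hr' : Monotone r') (hs : Monotone s)
    (τ : Equiv.Perm ℕ) (h : ∀ y, #{a | r' a = y} = #{a | r a = τ.symm y}) :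
    Nat.card (DD r' s) = Nat.card (DD r s) := by
  obtain ⟨N, hrN, hrN', hsN⟩ : ∃ N, (∀ a, r a < N) ∧ (∀ a, r' a < N) ∧ (∀ a, s a < N) := by
    refine ⟨∑ a, (r a + 1) + ∑ a, (r' a + 1) + ∑ a, (s a + 1), fun a => ?_, fun a => ?_,
      fun a => ?_⟩
    · have := Finset.single_le_sum (f := fun a => r a + 1) (fun i _ => Nat.zero_le _) (mem_univ a)
      omega
    · have := Finset.single_le_sum (f := fun a => r' a + 1) (fun i _ => Nat.zero_le _) (mem_univ a)
      omega
    · have := Finset.single_le_sum (f := fun a => s a + 1) (fun i _ => Nat.zero_le _) (mem_univ a)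
      omega
  rw [card_DD r s hr hs N hrN hsN, card_DD r' s hr' hs N hrN' hsN]
  apply mx_card τ _ _ h
  · intro y hy
    rw [card_eq_zero, filter_eq_empty_iff]
    intro a _ h
    have := hrN a
    omega
  · intro y hy
    rw [card_eq_zero, filter_eq_empty_iff]
    intro a _ h
    have := hrN' a
    omega

theorem class_symm (r r' : Fin n → ℕ) (hr : Monotone r) (hr' : Monotone r')
    (τ : Equiv.Perm ℕ) (h : ∀ y, #{a | r' a = y} = #{a | r a = τ.symm y})
    (J : Finset ℕ) (hJ : J ⊆ Icc 1 (n - 1)) :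
    #{π : Equiv.Perm (Fin n) | des π ⊆ asc r' ∧ des π.symm = J} =
      #{π : Equiv.Perm (Fin n) | des π ⊆ asc r ∧ des π.symm = J} := by
  classical
  refine mob (fun J => #{π : Equiv.Perm (Fin n) | des π ⊆ asc r' ∧ des π.symm = J})
    (fun J => #{π : Equiv.Perm (Fin n) | des π ⊆ asc r ∧ des π.symm = J}) (Icc 1 (n - 1)) ?_ J hJ
  intro J hJ
  obtain ⟨s, hs, rfl⟩ := asc_exists J hJ
  have h2 : ∀ (r : Fin n → ℕ), Monotone r → Nat.card (DD r s) =
      #{π : Equiv.Perm (Fin n) | des π ⊆ asc r ∧ des π.symm ⊆ asc s} := by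
    intro r hr
    rw [Nat.card_coe_set_eq, ← Set.ncard_coe_finset]
    congr 1
    ext π
    simp only [DD, Set.mem_ofPred_eq, coe_filter, mem_univ, true_and]
    rw [des_iff π r hr, des_iff π.symm s hs]
  have h3 : ∀ (r : Fin n → ℕ), ∑ X ∈ (asc s).powerset,
      #{π : Equiv.Perm (Fin n) | des π ⊆ asc r ∧ des π.symm = X} =
      #{π : Equiv.Perm (Fin n) | des π ⊆ asc r ∧ des π.symm ⊆ asc s} := by
    intro r
    have h3 := sum_fib (univ.filter (fun π : Equiv.Perm (Fin n) => des π ⊆ asc r))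
      (fun π => des π.symm) (asc s)
    simp only [filter_filter] at h3
    exact h3
  rw [h3, h3, ← h2 r hr, ← h2 r' hr']
  exact DD_symm r r' s hr hr' hs τ h

theorem family_symm (r r' : Fin n → ℕ) (hr : Monotone r) (hr' : Monotone r')
    (τ : Equiv.Perm ℕ) (h : ∀ y, #{a | r' a = y} = #{a | r a = τ.symm y})
    (P : Finset ℕ → Prop) [DecidablePred P] :
    #{π : Equiv.Perm (Fin n) | des π ⊆ asc r' ∧ P (des π.symm)} =
      #{π : Equiv.Perm (Fin n) | des π ⊆ asc r ∧ P (des π.symm)} := by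
  have key : ∀ r : Fin n → ℕ, #{π : Equiv.Perm (Fin n) | des π ⊆ asc r ∧ P (des π.symm)} =
      ∑ X ∈ (Icc 1 (n - 1)).powerset with P X,
        #{π : Equiv.Perm (Fin n) | des π ⊆ asc r ∧ des π.symm = X} := by
    intro r
    rw [card_eq_sum_card_fiberwise (f := fun π : Equiv.Perm (Fin n) => des π.symm)
      (t := (Icc 1 (n - 1)).powerset.filter P) (fun x hx => by
        simp only [coe_filter, mem_univ, true_and, Set.mem_ofPred_eq] at hx
        simp only [coe_filter, mem_powerset, Set.mem_ofPred_eq]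
        exact ⟨des_sub _, hx.2⟩)]
    refine sum_congr rfl fun X hX => ?_
    rw [filter_filter]
    congr 1
    apply filter_congr
    intro x _
    rw [mem_filter] at hX
    constructor
    · intro h; exact ⟨h.1.1, h.2⟩
    · intro h; exact ⟨⟨h.1, by rw [h.2]; exact hX.2⟩, h.2⟩
  rw [key, key]
  refine sum_congr rfl fun X hX => ?_
  exact class_symm r r' hr hr' τ h X (mem_powerset.1 (mem_filter.1 hX).1)

/-- Symmetry from the coefficients. -/
theorem symm_of (S : Finset (Equiv.Perm (Fin n)))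
    (h : ∀ (r r' : Fin n → ℕ) (τ : Equiv.Perm ℕ), Monotone r → Monotone r' →
      (∀ y, #{a | r' a = y} = #{a | r a = τ.symm y}) →
      #{π ∈ S | des π ⊆ asc r'} = #{π ∈ S | des π ⊆ asc r}) : IsSymmetric (Q S) := by
  intro τ e
  have hdeg : ∑ x ∈ (e.mapDomain τ).support, (e.mapDomain τ) x = ∑ x ∈ e.support, e x := by
    have := Finsupp.sum_mapDomain_index_inj (f := (τ : ℕ → ℕ)) (s := e)
      (h := fun _ (x : ℕ) => x) τ.injective
    exact this
  by_cases he : ∑ x ∈ e.support, e x = n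
  · obtain ⟨r, hr, hre⟩ := content_exists (n := n) e he
    obtain ⟨r', hr', hre'⟩ := content_exists (n := n) (e.mapDomain τ) (hdeg.trans he)
    rw [Q_coeff S r hr e hre, Q_coeff S r' hr' _ hre']
    rw [h r r' τ hr hr']
    intro y
    rw [← content_apply, ← content_apply, hre, hre']
    obtain ⟨x, rfl⟩ := τ.surjective y
    rw [Finsupp.mapDomain_apply τ.injective, Equiv.symm_apply_apply]
  · rw [Q_coeff_ne S e he, Q_coeff_ne S _ (by rw [hdeg]; exact he)]

theorem symm_dd (S : Finset (Equiv.Perm (Fin (m + 2))))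
    (hS : ∀ σ σ', dd σ = dd σ' → σ ∈ S → σ' ∈ S) : IsSymmetric (Q S) := by
  classical
  let P : Finset ℕ → Prop := fun X => ∃ σ ∈ S, dd σ = X
  have hP : ∀ σ, σ ∈ S ↔ P (dd σ) := by
    intro σ
    constructor
    · intro h; exact ⟨σ, h, rfl⟩
    · rintro ⟨σ', h1, h2⟩; exact hS σ' σ h2 h1
  apply symm_of
  intro r r' τ hr hr' h
  have key : ∀ r : Fin (m + 2) → ℕ, Monotone r → #{π ∈ S | des π ⊆ asc r} =
      #{π : Equiv.Perm (Fin (m + 2)) | des π ⊆ asc r ∧ P (des π.symm ∩ Icc 1 m)} := by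
    intro r hr
    have h2 := LR_family r hr P
    calc #{π ∈ S | des π ⊆ asc r} =
        #{σ : Equiv.Perm (Fin (m + 2)) | des σ ⊆ asc r ∧ P (dd σ)} := by
          congr 1
          ext σ
          simp only [mem_filter, mem_univ, true_and]
          rw [hP σ]
          exact and_comm
      _ = _ := by convert h2
  rw [key r hr, key r' hr']
  exact family_symm r r' hr hr' τ h (fun X => P (X ∩ Icc 1 m))

/-- Small cases. -/
theorem small (hn : n ≤ 1) (S : Finset (Equiv.Perm (Fin n))) :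
    IsSymmetric (Q S) ∧ SchurPositive n (Q S) := by
  classical
  have hsub : ∀ π : Equiv.Perm (Fin n), π = 1 := by
    intro π
    ext i
    have h1 := (π i).2
    have h2 := i.2
    simp only [Equiv.Perm.one_apply]
    omega
  have key : ∀ r : Fin n → ℕ, #{π ∈ S | des π ⊆ asc r} =
      #{π : Equiv.Perm (Fin n) | des π ⊆ asc r ∧ (fun _ : Finset ℕ => (1 ∈ S)) (des π.symm)} := by
    intro r
    congr 1
    ext π
    simp only [mem_filter, mem_univ, true_and]
    rw [hsub π]
    exact and_comm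
  constructor
  · apply symm_of
    intro r r' τ hr hr' h
    rw [key, key]
    exact family_symm r r' hr hr' τ h (fun _ => (1 ∈ S))
  · apply schurPositive_of S (fun μ => #{q ∈ stdSet μ n | (fun _ : Finset ℕ => (1 ∈ S)) (desQ q)})
    intro r e hr he
    rw [key]
    exact family_count r hr e he (fun _ => (1 ∈ S))

open Classical in
/-- Main theorem. -/
theorem main {k : ℕ} (v : Fin k → Bool) (n : ℕ) :
    IsSymmetric (Q (univ.filter (fun σ : Equiv.Perm (Fin n) => σ ∈ rotations (gridClass v n)))) ∧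
    SchurPositive n
      (Q (univ.filter (fun σ : Equiv.Perm (Fin n) => σ ∈ rotations (gridClass v n)))) := by
  rcases Nat.lt_or_ge 1 n with hn | hn
  · obtain ⟨m, rfl⟩ : ∃ m, n = m + 2 := ⟨n - 2, by omega⟩
    have hS : ∀ σ σ' : Equiv.Perm (Fin (m + 2)), dd σ = dd σ' →
        σ ∈ univ.filter (fun σ : Equiv.Perm (Fin (m + 2)) => σ ∈ rotations (gridClass v (m + 2))) →
        σ' ∈ univ.filter
          (fun σ : Equiv.Perm (Fin (m + 2)) => σ ∈ rotations (gridClass v (m + 2))) := by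
      intro σ σ' h h1
      rw [mem_filter] at h1 ⊢
      exact ⟨mem_univ _, rot_dd v σ σ' h h1.2⟩
    exact ⟨symm_dd _ hS, positive_dd _ hS⟩
  · exact small hn _

end V11134.VR
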